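import Pool.Agent.X98.BQ.Level

/-!
The transport term on the full lattice, with uniform tail estimates.
-/

set_option autoImplicit false

open scoped NNReal Topology InnerProductSpace ComplexConjugate
open Set Metric Filter

namespace Pool.Agent.X98.BQ

/-- the transport term on the full lattice -/
noncomputable def NN (P Q : Md → ℂ) (k : Md) : ℂ := ∑' l : Md, (ee k l : ℂ) * P l * Q (k - l)

/-- square-summability with bound `a` -/
def HB (P : Md → ℂ) (a : ℝ) : Prop := ∀ J : Finset Md, ∑ k ∈ J, ‖P k‖ ^ 2 ≤ a ^ 2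

lemma HB.le {P : Md → ℂ} {a : ℝ} (h : HB P a) (ha : 0 ≤ a) (k : Md) : ‖P k‖ ≤ a := by
  have h1 := h {k}
  rw [Finset.sum_singleton] at h1
  exact (sq_le_sq₀ (norm_nonneg _) ha).1 h1

lemma HB.shift {Q : Md → ℂ} {b : ℝ} (h : HB Q b) (k : Md) (J : Finset Md) :
    ∑ l ∈ J, ‖Q (k - l)‖ ^ 2 ≤ b ^ 2 := by
  classical
  have h1 := h (J.image fun l => k - l)
  rw [Finset.sum_image (by
    intro x _ y _ hxy
    exact sub_right_injective hxy)] at h1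
  exact h1

lemma ee_le (k l : Md) : |ee k l| ≤ Real.sqrt (sqn k) := by
  by_cases hl : l = 0
  · subst hl
    have : ee k 0 = 0 := by unfold ee; simp
    rw [this, abs_zero]
    exact Real.sqrt_nonneg _
  have h1 := one_le_sqn hl
  apply Real.abs_le_sqrt
  unfold ee
  rw [div_pow, div_le_iff₀ (by positivity)]
  have h2 : ((l.1 : ℝ) * k.2 - (l.2 : ℝ) * k.1) ^ 2 ≤ sqn k * sqn l := by
    unfold sqn
    nlinarith [sq_nonneg ((l.1 : ℝ) * k.1 + l.2 * k.2)]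
  have h3 : sqn k * sqn l ≤ sqn k * sqn l ^ 2 := by
    have := sqn_nonneg k
    have h4 : sqn l ≤ sqn l ^ 2 := by nlinarith
    exact mul_le_mul_of_nonneg_left h4 this
  linarith

lemma ee_tail (k : Md) {l : Md} {M : ℕ} (hl : l ∉ K M) : |ee k l| ≤ Real.sqrt (sqn k) / (M + 1) := by
  by_cases hl0 : l = 0
  · subst hl0
    have : ee k 0 = 0 := by unfold ee; simp
    rw [this, abs_zero]
    positivity
  have h1 := one_le_sqn hl0
  have hbig : ((M : ℝ) + 1) ^ 2 ≤ sqn l := by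
    rw [mem_K] at hl
    have h2 : (M : ℤ) + 1 ≤ |l.1| ∨ (M : ℤ) + 1 ≤ |l.2| := by
      by_contra hcon
      push Not at hcon
      exact hl ⟨hl0, by omega, by omega⟩
    unfold sqn
    rcases h2 with h2 | h2
    · have h3 : ((M : ℝ) + 1) ≤ |(l.1 : ℝ)| := by exact_mod_cast h2
      have h4 : ((M : ℝ) + 1) ^ 2 ≤ |(l.1 : ℝ)| ^ 2 := pow_le_pow_left₀ (by positivity) h3 2
      rw [sq_abs] at h4
      nlinarith [sq_nonneg (l.2 : ℝ)]
    · have h3 : ((M : ℝ) + 1) ≤ |(l.2 : ℝ)| := by exact_mod_cast h2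
      have h4 : ((M : ℝ) + 1) ^ 2 ≤ |(l.2 : ℝ)| ^ 2 := pow_le_pow_left₀ (by positivity) h3 2
      rw [sq_abs] at h4
      nlinarith [sq_nonneg (l.1 : ℝ)]
  have h5 : |ee k l| ^ 2 ≤ (Real.sqrt (sqn k) / (M + 1)) ^ 2 := by
    rw [sq_abs, div_pow, Real.sq_sqrt (sqn_nonneg k)]
    unfold ee
    rw [div_pow, div_le_div_iff₀ (by positivity) (by positivity)]
    have h2 : ((l.1 : ℝ) * k.2 - (l.2 : ℝ) * k.1) ^ 2 ≤ sqn k * sqn l := by
      unfold sqn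
      nlinarith [sq_nonneg ((l.1 : ℝ) * k.1 + l.2 * k.2)]
    calc ((l.1 : ℝ) * k.2 - (l.2 : ℝ) * k.1) ^ 2 * ((M : ℝ) + 1) ^ 2
        ≤ (sqn k * sqn l) * sqn l :=
          mul_le_mul h2 hbig (by positivity) (mul_nonneg (sqn_nonneg _) (sqn_nonneg _))
      _ = sqn k * sqn l ^ 2 := by ring
  exact (sq_le_sq₀ (abs_nonneg _) (by positivity)).1 h5

section est

variable {P Q P' Q' : Md → ℂ} {a b : ℝ}

lemma sum_prod_le (ha : 0 ≤ a) (hb : 0 ≤ b) (hP : HB P a) (hQ : HB Q b) (k : Md) (J : Finset Md) :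
    ∑ l ∈ J, ‖P l‖ * ‖Q (k - l)‖ ≤ a * b := by
  have h1 := Finset.sum_mul_sq_le_sq_mul_sq J (fun l => ‖P l‖) (fun l => ‖Q (k - l)‖)
  have h2 : (∑ l ∈ J, ‖P l‖ * ‖Q (k - l)‖) ^ 2 ≤ (a * b) ^ 2 := by
    refine h1.trans ?_
    rw [mul_pow]
    exact mul_le_mul (hP J) (hQ.shift k J) (Finset.sum_nonneg fun _ _ => sq_nonneg _) (sq_nonneg _)
  exact (sq_le_sq₀ (Finset.sum_nonneg fun _ _ => by positivity) (by positivity)).1 h2

lemma sum_tail (ha : 0 ≤ a) (hb : 0 ≤ b) (hP : HB P a) (hQ : HB Q b) (k : Md) (M : ℕ)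
    (J : Finset Md) (hJ : ∀ l ∈ J, l ∉ K M) :
    ∑ l ∈ J, ‖(ee k l : ℂ) * P l * Q (k - l)‖ ≤ Real.sqrt (sqn k) * (a * b) / (M + 1) := by
  calc ∑ l ∈ J, ‖(ee k l : ℂ) * P l * Q (k - l)‖
      ≤ ∑ l ∈ J, Real.sqrt (sqn k) / (M + 1) * (‖P l‖ * ‖Q (k - l)‖) := by
        apply Finset.sum_le_sum
        intro l hl
        rw [norm_mul, norm_mul, Complex.norm_real, Real.norm_eq_abs, mul_assoc]
        exact mul_le_mul_of_nonneg_right (ee_tail k (hJ l hl)) (by positivity)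
    _ = Real.sqrt (sqn k) / (M + 1) * ∑ l ∈ J, ‖P l‖ * ‖Q (k - l)‖ := by rw [Finset.mul_sum]
    _ ≤ Real.sqrt (sqn k) / (M + 1) * (a * b) :=
        mul_le_mul_of_nonneg_left (sum_prod_le ha hb hP hQ k J) (by positivity)
    _ = _ := by ring

lemma not_mem_K_zero (l : Md) : l ∉ K 0 := by
  rw [mem_K]
  rintro ⟨h1, h2, h3⟩
  apply h1
  have h4 : |l.1| ≤ 0 := by exact_mod_cast h2
  have h5 : |l.2| ≤ 0 := by exact_mod_cast h3
  exact Prod.ext (abs_nonpos_iff.1 h4) (abs_nonpos_iff.1 h5)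

lemma summable_term (ha : 0 ≤ a) (hb : 0 ≤ b) (hP : HB P a) (hQ : HB Q b) (k : Md) :
    Summable fun l => ‖(ee k l : ℂ) * P l * Q (k - l)‖ :=
  summable_of_sum_le (fun _ => norm_nonneg _)
    (fun J => sum_tail ha hb hP hQ k 0 J (fun l _ => not_mem_K_zero l))

lemma NN_norm_le (ha : 0 ≤ a) (hb : 0 ≤ b) (hP : HB P a) (hQ : HB Q b) (k : Md) :
    ‖NN P Q k‖ ≤ Real.sqrt (sqn k) * (a * b) := by
  have h1 := summable_term ha hb hP hQ k
  refine (norm_tsum_le_tsum_norm h1).trans ?_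
  refine h1.tsum_le_of_sum_le (fun J => ?_)
  have h2 := sum_tail ha hb hP hQ k 0 J (fun l _ => not_mem_K_zero l)
  simpa using h2

lemma NN_tail (ha : 0 ≤ a) (hb : 0 ≤ b) (hP : HB P a) (hQ : HB Q b) (k : Md) (M : ℕ) :
    ‖NN P Q k - ∑ l ∈ K M, (ee k l : ℂ) * P l * Q (k - l)‖
      ≤ Real.sqrt (sqn k) * (a * b) / (M + 1) := by
  classical
  have h1 : HasSum (fun l => (ee k l : ℂ) * P l * Q (k - l)) (NN P Q k) :=
    (summable_term ha hb hP hQ k).of_norm.hasSum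
  have h2 : Tendsto (fun J : Finset Md => ‖∑ l ∈ J, (ee k l : ℂ) * P l * Q (k - l)
      - ∑ l ∈ K M, (ee k l : ℂ) * P l * Q (k - l)‖) atTop
      (𝓝 ‖NN P Q k - ∑ l ∈ K M, (ee k l : ℂ) * P l * Q (k - l)‖) := (h1.sub_const _).norm
  refine le_of_tendsto h2 ?_
  filter_upwards [eventually_ge_atTop (K M)] with J hJ
  have h3 : ∑ l ∈ J, (ee k l : ℂ) * P l * Q (k - l)
      - ∑ l ∈ K M, (ee k l : ℂ) * P l * Q (k - l)
      = ∑ l ∈ J \ K M, (ee k l : ℂ) * P l * Q (k - l) := by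
    rw [← Finset.sum_sdiff hJ]; ring
  rw [h3]
  refine (norm_sum_le _ _).trans (sum_tail ha hb hP hQ k M _ ?_)
  intro l hl
  exact (Finset.mem_sdiff.1 hl).2

lemma NN_diff (ha : 0 ≤ a) (hb : 0 ≤ b) (hP : HB P a) (hQ : HB Q b) (hP' : HB P' a) (hQ' : HB Q' b)
    (k : Md) (M : ℕ) :
    ‖NN P Q k - NN P' Q' k‖ ≤ 2 * (Real.sqrt (sqn k) * (a * b)) / (M + 1) +
      Real.sqrt (sqn k) * ∑ l ∈ K M, (b * ‖P l - P' l‖ + a * ‖Q (k - l) - Q' (k - l)‖) := by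
  have h1 := NN_tail ha hb hP hQ k M
  have h2 := NN_tail ha hb hP' hQ' k M
  set S := ∑ l ∈ K M, (ee k l : ℂ) * P l * Q (k - l) with hS
  set S' := ∑ l ∈ K M, (ee k l : ℂ) * P' l * Q' (k - l) with hS'
  have h3 : ‖S - S'‖ ≤ Real.sqrt (sqn k) *
      ∑ l ∈ K M, (b * ‖P l - P' l‖ + a * ‖Q (k - l) - Q' (k - l)‖) := by
    rw [hS, hS', ← Finset.sum_sub_distrib, Finset.mul_sum]
    refine (norm_sum_le _ _).trans (Finset.sum_le_sum fun l _ => ?_)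
    have h4 : (ee k l : ℂ) * P l * Q (k - l) - (ee k l : ℂ) * P' l * Q' (k - l)
        = (ee k l : ℂ) * ((P l - P' l) * Q (k - l) + P' l * (Q (k - l) - Q' (k - l))) := by ring
    rw [h4, norm_mul, Complex.norm_real, Real.norm_eq_abs]
    refine mul_le_mul (ee_le k l) ?_ (norm_nonneg _) (Real.sqrt_nonneg _)
    refine (norm_add_le _ _).trans ?_
    rw [norm_mul, norm_mul]
    have h5 := hQ.le hb (k - l)
    have h6 := hP'.le ha l
    have h7 := norm_nonneg (P l - P' l)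
    have h8 := norm_nonneg (Q (k - l) - Q' (k - l))
    nlinarith
  have h9 : NN P Q k - NN P' Q' k = (NN P Q k - S) + (S - S') - (NN P' Q' k - S') := by ring
  rw [h9]
  refine (norm_sub_le _ _).trans ?_
  have h10 := norm_add_le (NN P Q k - S) (S - S')
  have h11 : 2 * (Real.sqrt (sqn k) * (a * b)) / (M + 1)
      = Real.sqrt (sqn k) * (a * b) / (M + 1) + Real.sqrt (sqn k) * (a * b) / (M + 1) := by ring
  rw [h11]
  linarith

end est

lemma exists_M (C : ℝ) {ε : ℝ} (hε : 0 < ε) : ∃ M : ℕ, C / (M + 1) < ε := by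
  obtain ⟨M, hM⟩ := exists_nat_gt (C / ε)
  refine ⟨M, ?_⟩
  rw [div_lt_iff₀ (by positivity)]
  rw [div_lt_iff₀ hε] at hM
  nlinarith

lemma HB_of_tendsto {ι : Type*} {F : Filter ι} [NeBot F] {P : ι → Md → ℂ} {P₀ : Md → ℂ} {a : ℝ}
    (hP : ∀ k, Tendsto (fun i => P i k) F (𝓝 (P₀ k))) (h : ∀ᶠ i in F, HB (P i) a) : HB P₀ a := by
  intro J
  have h1 : Tendsto (fun i => ∑ k ∈ J, ‖P i k‖ ^ 2) F (𝓝 (∑ k ∈ J, ‖P₀ k‖ ^ 2)) :=
    tendsto_finsetSum _ fun k _ => ((hP k).norm.pow 2)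
  exact le_of_tendsto h1 (h.mono fun i hi => hi J)

lemma tendsto_NN {ι : Type*} {F : Filter ι} [NeBot F] {P Q : ι → Md → ℂ} {P₀ Q₀ : Md → ℂ} {a b : ℝ}
    (ha : 0 ≤ a) (hb : 0 ≤ b)
    (hP : ∀ k, Tendsto (fun i => P i k) F (𝓝 (P₀ k))) (hQ : ∀ k, Tendsto (fun i => Q i k) F (𝓝 (Q₀ k)))
    (hPb : ∀ᶠ i in F, HB (P i) a) (hQb : ∀ᶠ i in F, HB (Q i) b) (k : Md) :
    Tendsto (fun i => NN (P i) (Q i) k) F (𝓝 (NN P₀ Q₀ k)) := by
  have hP0 := HB_of_tendsto hP hPb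
  have hQ0 := HB_of_tendsto hQ hQb
  rw [Metric.tendsto_nhds]
  intro ε hε
  obtain ⟨M, hM⟩ := exists_M (2 * (Real.sqrt (sqn k) * (a * b))) (half_pos hε)
  have h1 : Tendsto (fun i => Real.sqrt (sqn k) *
      ∑ l ∈ K M, (b * ‖P i l - P₀ l‖ + a * ‖Q i (k - l) - Q₀ (k - l)‖)) F
      (𝓝 (Real.sqrt (sqn k) * ∑ l ∈ K M, (b * ‖P₀ l - P₀ l‖ + a * ‖Q₀ (k - l) - Q₀ (k - l)‖))) := by
    refine Tendsto.const_mul _ (tendsto_finsetSum _ fun l _ => ?_)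
    exact ((((hP l).sub_const _).norm).const_mul b).add ((((hQ (k - l)).sub_const _).norm).const_mul a)
  have h2 : Real.sqrt (sqn k) * ∑ l ∈ K M, (b * ‖P₀ l - P₀ l‖ + a * ‖Q₀ (k - l) - Q₀ (k - l)‖) = 0 := by
    simp
  rw [h2] at h1
  have h3 := h1.eventually (gt_mem_nhds (half_pos hε))
  filter_upwards [h3, hPb, hQb] with i hi hPi hQi
  rw [dist_eq_norm]
  have h4 := NN_diff ha hb hPi hQi hP0 hQ0 k M
  linarith

lemma NN_eq_sum {n : ℕ} {P Q : Md → ℂ} (hQ : ∀ k, k ∉ K n → Q k = 0) (k : Md) :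
    NN P Q k = ∑ j ∈ K n, (ee k (k - j) : ℂ) * P (k - j) * Q j := by
  unfold NN
  rw [← (Equiv.subLeft k).tsum_eq (fun l => (ee k l : ℂ) * P l * Q (k - l))]
  rw [tsum_eq_sum (s := K n) (fun j hj => by
    simp only [Equiv.subLeft_apply, sub_sub_cancel]
    rw [hQ j hj, mul_zero])]
  refine Finset.sum_congr rfl fun j _ => ?_
  simp only [Equiv.subLeft_apply, sub_sub_cancel]

lemma NN_zero (P Q : Md → ℂ) : NN P Q 0 = 0 := by
  unfold NN
  have h : ∀ l, (ee 0 l : ℂ) * P l * Q (0 - l) = 0 := by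
    intro l
    have : ee 0 l = 0 := by unfold ee; simp
    rw [this]; simp
  simp only [h, tsum_zero]

/-- derivative of a limit along a filter -/
lemma hasDerivAt_lim {F : Filter ℕ} [NeBot F] {f g : ℕ → ℝ → ℂ} {f₀ : ℝ → ℂ} {g₀ : ℂ} {t : ℝ}
    (hf : ∀ s, Tendsto (fun n => f n s) F (𝓝 (f₀ s))) (hg : Tendsto (fun n => g n t) F (𝓝 g₀))
    (hmod : ∀ ε : ℝ, 0 < ε → ∃ δ : ℝ, 0 < δ ∧ ∀ᶠ n in F, ∀ s, |s - t| < δ →
      HasDerivAt (f n) (g n s) s ∧ ‖g n s - g n t‖ ≤ ε) : HasDerivAt f₀ g₀ t := by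
  rw [hasDerivAt_iff_isLittleO, Asymptotics.isLittleO_iff]
  intro c hc
  obtain ⟨δ, hδ, h⟩ := hmod c hc
  filter_upwards [Metric.ball_mem_nhds t hδ] with s hs
  have hs' : |s - t| < δ := by rwa [mem_ball, Real.dist_eq] at hs
  have h1 : Tendsto (fun n => ‖f n s - f n t - (s - t) • g n t‖) F
      (𝓝 ‖f₀ s - f₀ t - (s - t) • g₀‖) :=
    (((hf s).sub (hf t)).sub (hg.const_smul _)).norm
  refine le_of_tendsto h1 ?_
  filter_upwards [h] with n hn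
  set φ : ℝ → ℂ := fun x => f n x - (x - t) • g n t with hφ
  have hφd : ∀ x ∈ ball t δ, HasDerivWithinAt φ (g n x - g n t) (ball t δ) x := by
    intro x hx
    rw [mem_ball, Real.dist_eq] at hx
    have h2 := (hn x hx).1
    have h3 : HasDerivAt (fun x : ℝ => (x - t) • g n t) (g n t) x := by
      have := ((hasDerivAt_id x).sub_const t).smul_const (g n t)
      simpa using this
    exact (h2.sub h3).hasDerivWithinAt
  have h4 := (convex_ball t δ).norm_image_sub_le_of_norm_hasDerivWithin_le hφd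
    (C := c) (fun x hx => (hn x (by rwa [mem_ball, Real.dist_eq] at hx)).2)
    (mem_ball_self hδ) (y := s) hs
  have h5 : φ s - φ t = f n s - f n t - (s - t) • g n t := by
    simp only [hφ, sub_self, zero_smul, sub_zero]
    abel
  rw [h5] at h4
  exact h4

end Pool.Agent.X98.BQ
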