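import Pool.Agent.X98.BQ.Bilin

/-!
Complete bounded solutions of the semi-dissipative Boussinesq system (Fourier side, vorticity form)
with prescribed temperature at time zero.
-/

set_option autoImplicit false

open scoped NNReal Topology InnerProductSpace ComplexConjugate
open Set Metric Filter

namespace Pool.Agent.X98.BQ

/-- right-hand side of the vorticity equation -/
noncomputable def rW (ν g κ : ℝ) (w θ : Md → ℂ) (k : Md) : ℂ :=
  -(NN w w k) - mA ν κ k * w k + mG g κ k * θ k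

/-- right-hand side of the temperature equation -/
noncomputable def rT (w θ : Md → ℂ) (k : Md) : ℂ := -(NN w θ k)

section approx

variable {ν g κ : ℝ}

/-- The approximations, on the time interval `[-n, ∞)`, with the temperature prescribed at `0`. -/
lemma approx (hν : 0 < ν) (hg : 0 < g) (hκ : 0 < κ) (ψ : Md → ℂ)
    (hψ : ∀ k, ψ (-k) = conj (ψ k)) {ρ : ℝ} (hρ0 : 0 ≤ ρ) (hρ : HB ψ ρ) (n : ℕ) :
    ∃ W Θ : ℝ → Md → ℂ, (∀ k ∈ K n, Θ 0 k = ψ k) ∧
      (∀ t k, k ∉ K n → W t k = 0 ∧ Θ t k = 0) ∧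
      (∀ t k, W t (-k) = conj (W t k) ∧ Θ t (-k) = conj (Θ t k)) ∧
      (∀ t, HB (Θ t) ρ) ∧ (∀ t, -(n : ℝ) ≤ t → HB (W t) (g / (ν * κ) * ρ)) ∧
      (∀ t, -(n : ℝ) ≤ t → ∀ k ∈ K n, HasDerivAt (fun s => W s k) (rW ν g κ (W t) (Θ t) k) t) ∧
      (∀ t, -(n : ℝ) ≤ t → ∀ k ∈ K n, HasDerivAt (fun s => Θ s k) (rT (W t) (Θ t) k) t) := by
  classical
  obtain ⟨W, Θ, h1, h2, h3, h4, h5, h6, h7⟩ := level n hν hg hκ ψ hψ (T := n) (Nat.cast_nonneg n)
  have hsum : ∀ (P : Md → ℂ) (a : ℝ), (∀ k, k ∉ K n → P k = 0) → (∑ k ∈ K n, ‖P k‖ ^ 2 ≤ a ^ 2) →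
      HB P a := by
    intro P a hP hs J
    calc ∑ k ∈ J, ‖P k‖ ^ 2 = ∑ k ∈ J ∩ K n, ‖P k‖ ^ 2 := by
          symm
          apply Finset.sum_subset Finset.inter_subset_left
          intro k hk hk'
          have hk2 : k ∉ K n := fun h => hk' (Finset.mem_inter.2 ⟨hk, h⟩)
          rw [hP k hk2]
          simp
      _ ≤ ∑ k ∈ K n, ‖P k‖ ^ 2 :=
          Finset.sum_le_sum_of_subset_of_nonneg Finset.inter_subset_right (fun _ _ _ => sq_nonneg _)
      _ ≤ a ^ 2 := hs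
  refine ⟨fun t => W (t + n), fun t => Θ (t + n), ?_, ?_, ?_, ?_, ?_, ?_, ?_⟩
  · intro k hk
    simp only [zero_add]
    exact h1 k hk
  · intro t k hk; exact h2 _ k hk
  · intro t k; exact h3 _ k
  · intro t
    exact hsum _ _ (fun k hk => (h2 _ k hk).2) ((h4 _).trans (hρ _))
  · intro t ht
    refine hsum _ _ (fun k hk => (h2 _ k hk).1) ((h5 _ (by linarith)).trans ?_)
    rw [mul_pow]
    exact mul_le_mul_of_nonneg_left (hρ _) (sq_nonneg _)
  · intro t ht k hk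
    have h8 := h6 (t + n) (by linarith) k hk
    rw [← NN_eq_sum (fun k hk => (h2 _ k hk).1)] at h8
    exact HasDerivAt.comp_add_const (f := fun s => W s k) t (n : ℝ) h8
  · intro t ht k hk
    have h8 := h7 (t + n) (by linarith) k hk
    rw [← NN_eq_sum (fun k hk => (h2 _ k hk).2)] at h8
    exact HasDerivAt.comp_add_const (f := fun s => Θ s k) t (n : ℝ) h8

end approx

/-- existence of limits along the ultrafilter -/
lemma exists_lim (x : ℕ → ℂ) {C : ℝ} (h : ∀ᶠ n in (hyperfilter ℕ : Filter ℕ), ‖x n‖ ≤ C) :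
    ∃ a : ℂ, Tendsto x (hyperfilter ℕ : Filter ℕ) (𝓝 a) := by
  have h1 : ((hyperfilter ℕ).map x : Filter ℂ) ≤ 𝓟 (closedBall 0 C) := by
    rw [le_principal_iff, Ultrafilter.coe_map, mem_map]
    filter_upwards [h] with n hn
    rw [mem_preimage, mem_closedBall_zero_iff]
    exact hn
  obtain ⟨a, -, ha⟩ := (isCompact_closedBall (0 : ℂ) C).ultrafilter_le_nhds ((hyperfilter ℕ).map x) h1
  exact ⟨a, ha⟩

lemma ev_ge (t : ℝ) : ∀ᶠ n : ℕ in (hyperfilter ℕ : Filter ℕ), -(n : ℝ) ≤ t := by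
  apply Nat.hyperfilter_le_atTop
  obtain ⟨N, hN⟩ := exists_nat_ge (-t)
  filter_upwards [eventually_ge_atTop N] with n hn
  have : (N : ℝ) ≤ n := by exact_mod_cast hn
  linarith

lemma ev_mem {k : Md} (hk : k ≠ 0) : ∀ᶠ n : ℕ in (hyperfilter ℕ : Filter ℕ), k ∈ K n := by
  apply Nat.hyperfilter_le_atTop
  filter_upwards [eventually_ge_atTop (k.1.natAbs + k.2.natAbs)] with n hn
  rw [mem_K]
  refine ⟨hk, ?_, ?_⟩
  · rw [Int.abs_eq_natAbs]
    have : k.1.natAbs ≤ n := by omega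
    exact_mod_cast this
  · rw [Int.abs_eq_natAbs]
    have : k.2.natAbs ≤ n := by omega
    exact_mod_cast this

lemma HB.neg {P : Md → ℂ} {a : ℝ} (h : HB P a) : HB (fun k => -P k) a := by
  intro J
  simpa using h J

set_option maxHeartbeats 1600000 in
theorem core {ν g κ : ℝ} (hν : 0 < ν) (hg : 0 < g) (hκ : 0 < κ) (ψ : Md → ℂ)
    (hψ : ∀ k, ψ (-k) = conj (ψ k)) (hψ0 : ψ 0 = 0) {ρ : ℝ} (hρ0 : 0 ≤ ρ) (hρ : HB ψ ρ) :
    ∃ w θ : ℝ → Md → ℂ, θ 0 = ψ ∧ (∀ t, w t 0 = 0 ∧ θ t 0 = 0) ∧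
      (∀ t k, w t (-k) = conj (w t k) ∧ θ t (-k) = conj (θ t k)) ∧
      (∀ t, HB (θ t) ρ) ∧ (∀ t, HB (w t) (g / (ν * κ) * ρ)) ∧
      (∀ t k, HasDerivAt (fun s => w s k) (rW ν g κ (w t) (θ t) k) t) ∧
      (∀ t k, HasDerivAt (fun s => θ s k) (rT (w t) (θ t) k) t) := by
  choose W Θ hΘ0 hsupp hsym hΘb hWb hWd hΘd using approx hν hg hκ ψ hψ hρ0 hρ
  set a : ℝ := g / (ν * κ) * ρ with ha
  have ha0 : 0 ≤ a := by positivity
  set 𝒰 : Filter ℕ := (hyperfilter ℕ : Filter ℕ) with h𝒰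
  have : NeBot 𝒰 := (hyperfilter ℕ).neBot
  have hexW : ∀ t k, ∃ x : ℂ, Tendsto (fun n => W n t k) 𝒰 (𝓝 x) := by
    intro t k
    apply exists_lim (C := a)
    filter_upwards [ev_ge t] with n hn
    exact (hWb n t hn).le ha0 k
  have hexΘ : ∀ t k, ∃ x : ℂ, Tendsto (fun n => Θ n t k) 𝒰 (𝓝 x) := by
    intro t k
    apply exists_lim (C := ρ)
    exact Eventually.of_forall fun n => (hΘb n t).le hρ0 k
  choose w hw using hexW
  choose θ hθ using hexΘ
  -- Lipschitz constants of the modes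
  set Λ : Md → ℝ := fun k => Real.sqrt (sqn k) * (a * a) + ‖mA ν κ k‖ * a + ‖mG g κ k‖ * ρ +
    Real.sqrt (sqn k) * (a * ρ) with hΛ
  have hΛ0 : ∀ k, 0 ≤ Λ k := fun k => by positivity
  have hrW : ∀ (n : ℕ) (t : ℝ), -(n : ℝ) ≤ t → ∀ k, ‖rW ν g κ (W n t) (Θ n t) k‖ ≤ Λ k := by
    intro n t ht k
    have h1 := NN_norm_le ha0 ha0 (hWb n t ht) (hWb n t ht) k
    have h2 := (hWb n t ht).le ha0 k
    have h3 := (hΘb n t).le hρ0 k
    unfold rW
    refine (norm_add_le _ _).trans ?_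
    have h4 := norm_sub_le (-(NN (W n t) (W n t) k)) (mA ν κ k * W n t k)
    rw [norm_neg, norm_mul] at h4
    rw [norm_mul]
    have h5 : ‖mA ν κ k‖ * ‖W n t k‖ ≤ ‖mA ν κ k‖ * a := mul_le_mul_of_nonneg_left h2 (norm_nonneg _)
    have h6 : ‖mG g κ k‖ * ‖Θ n t k‖ ≤ ‖mG g κ k‖ * ρ := mul_le_mul_of_nonneg_left h3 (norm_nonneg _)
    have h7 : 0 ≤ Real.sqrt (sqn k) * (a * ρ) := by positivity
    simp only [hΛ]
    linarith
  have hrT : ∀ (n : ℕ) (t : ℝ), -(n : ℝ) ≤ t → ∀ k, ‖rT (W n t) (Θ n t) k‖ ≤ Λ k := by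
    intro n t ht k
    have h1 := NN_norm_le ha0 hρ0 (hWb n t ht) (hΘb n t) k
    unfold rT
    rw [norm_neg]
    refine h1.trans ?_
    have h7 : 0 ≤ Real.sqrt (sqn k) * (a * a) + ‖mA ν κ k‖ * a + ‖mG g κ k‖ * ρ := by positivity
    simp only [hΛ]
    linarith
  have hLip : ∀ (f g' : ℝ → ℂ) (C b s t : ℝ), (∀ x, b ≤ x → HasDerivAt f (g' x) x) →
      (∀ x, b ≤ x → ‖g' x‖ ≤ C) → b ≤ s → b ≤ t → ‖f s - f t‖ ≤ C * |s - t| := by
    intro f g' C b s t hf hg' hs ht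
    have := (convex_Ici b).norm_image_sub_le_of_norm_hasDerivWithin_le
      (fun x hx => (hf x hx).hasDerivWithinAt) hg' (x := t) (y := s) ht hs
    rwa [Real.norm_eq_abs] at this
  have hWLip : ∀ (n : ℕ) (s t : ℝ), -(n : ℝ) ≤ s → -(n : ℝ) ≤ t → ∀ k, ‖W n s k - W n t k‖ ≤ Λ k * |s - t| := by
    intro n s t hs ht k
    by_cases hk : k ∈ K n
    · exact hLip (fun x => W n x k) _ _ _ s t (fun x hx => hWd n x hx k hk)
        (fun x hx => hrW n x hx k) hs ht
    · rw [(hsupp n s k hk).1, (hsupp n t k hk).1, sub_zero, norm_zero]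
      exact mul_nonneg (hΛ0 k) (abs_nonneg _)
  have hΘLip : ∀ (n : ℕ) (s t : ℝ), -(n : ℝ) ≤ s → -(n : ℝ) ≤ t → ∀ k, ‖Θ n s k - Θ n t k‖ ≤ Λ k * |s - t| := by
    intro n s t hs ht k
    by_cases hk : k ∈ K n
    · exact hLip (fun x => Θ n x k) _ _ _ s t (fun x hx => hΘd n x hx k hk)
        (fun x hx => hrT n x hx k) hs ht
    · rw [(hsupp n s k hk).2, (hsupp n t k hk).2, sub_zero, norm_zero]
      exact mul_nonneg (hΛ0 k) (abs_nonneg _)
  -- modulus of continuity of the transport terms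
  have hmod : ∀ (b : ℝ) (hb : 0 ≤ b) (Q : ℕ → ℝ → Md → ℂ) (k : Md) (t : ℝ)
      (hQb : ∀ (n : ℕ) (s : ℝ), -(n : ℝ) ≤ s → HB (Q n s) b)
      (hQ : ∀ (n : ℕ) (s t : ℝ), -(n : ℝ) ≤ s → -(n : ℝ) ≤ t → ∀ k, ‖Q n s k - Q n t k‖ ≤ Λ k * |s - t|)
      (ε : ℝ), 0 < ε → ∃ δ : ℝ, 0 < δ ∧ ∀ᶠ n : ℕ in 𝒰, ∀ s, |s - t| < δ → -(n : ℝ) ≤ s ∧
        ‖NN (W n s) (Q n s) k - NN (W n t) (Q n t) k‖ ≤ ε := by
    intro b hb Q k t hQb hQ ε hε
    obtain ⟨M, hM⟩ := exists_M (2 * (Real.sqrt (sqn k) * (a * b))) (half_pos hε)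
    set C : ℝ := Real.sqrt (sqn k) * ∑ l ∈ K M, (b * Λ l + a * Λ (k - l)) with hC
    have hC0 : 0 ≤ C := by
      refine mul_nonneg (Real.sqrt_nonneg _) (Finset.sum_nonneg fun l _ => ?_)
      exact add_nonneg (mul_nonneg hb (hΛ0 _)) (mul_nonneg ha0 (hΛ0 _))
    refine ⟨min 1 (ε / 2 / (C + 1)), by positivity, ?_⟩
    filter_upwards [ev_ge (t - 1)] with n hn s hs
    have hs1 : |s - t| < 1 := lt_of_lt_of_le hs (min_le_left _ _)
    have hs2 : |s - t| < ε / 2 / (C + 1) := lt_of_lt_of_le hs (min_le_right _ _)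
    have hsn : -(n : ℝ) ≤ s := by
      have := (abs_lt.1 hs1).1
      linarith
    have htn : -(n : ℝ) ≤ t := by linarith
    refine ⟨hsn, ?_⟩
    have h1 := NN_diff ha0 hb (hWb n s hsn) (hQb n s hsn) (hWb n t htn) (hQb n t htn) k M
    refine h1.trans ?_
    have h2 : Real.sqrt (sqn k) * ∑ l ∈ K M, (b * ‖W n s l - W n t l‖
        + a * ‖Q n s (k - l) - Q n t (k - l)‖) ≤ C * |s - t| := by
      rw [hC, mul_assoc, Finset.sum_mul]
      refine mul_le_mul_of_nonneg_left (Finset.sum_le_sum fun l _ => ?_) (Real.sqrt_nonneg _)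
      have h3 := hWLip n s t hsn htn l
      have h4 := hQ n s t hsn htn (k - l)
      have h5 := mul_le_mul_of_nonneg_left h3 hb
      have h6 := mul_le_mul_of_nonneg_left h4 ha0
      nlinarith
    have h3 : C * |s - t| ≤ ε / 2 := by
      have h4 : (C + 1) * |s - t| ≤ (C + 1) * (ε / 2 / (C + 1)) :=
        mul_le_mul_of_nonneg_left hs2.le (by positivity)
      have h5 : (C + 1) * (ε / 2 / (C + 1)) = ε / 2 := by field_simp
      have h6 := abs_nonneg (s - t)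
      nlinarith
    linarith
  have hlimW : ∀ t k, Tendsto (fun n => rW ν g κ (W n t) (Θ n t) k) 𝒰 (𝓝 (rW ν g κ (w t) (θ t) k)) := by
    intro t k
    have h1 : Tendsto (fun n => NN (W n t) (W n t) k) 𝒰 (𝓝 (NN (w t) (w t) k)) :=
      tendsto_NN ha0 ha0 (hw t) (hw t) ((ev_ge t).mono fun n hn => hWb n t hn)
        ((ev_ge t).mono fun n hn => hWb n t hn) k
    exact (h1.neg.sub ((hw t k).const_mul _)).add ((hθ t k).const_mul _)
  have hlimT : ∀ t k, Tendsto (fun n => rT (W n t) (Θ n t) k) 𝒰 (𝓝 (rT (w t) (θ t) k)) := by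
    intro t k
    have h1 : Tendsto (fun n => NN (W n t) (Θ n t) k) 𝒰 (𝓝 (NN (w t) (θ t) k)) :=
      tendsto_NN ha0 hρ0 (hw t) (hθ t) ((ev_ge t).mono fun n hn => hWb n t hn)
        (Eventually.of_forall fun n => hΘb n t) k
    exact h1.neg
  have hzero : ∀ t, w t 0 = 0 ∧ θ t 0 = 0 := by
    intro t
    constructor
    · refine tendsto_nhds_unique (hw t 0) ?_
      have : (fun n => W n t 0) = fun _ => (0 : ℂ) := by
        funext n; exact (hsupp n t 0 (zero_not_mem_K n)).1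
      rw [this]; exact tendsto_const_nhds
    · refine tendsto_nhds_unique (hθ t 0) ?_
      have : (fun n => Θ n t 0) = fun _ => (0 : ℂ) := by
        funext n; exact (hsupp n t 0 (zero_not_mem_K n)).2
      rw [this]; exact tendsto_const_nhds
  refine ⟨w, θ, ?_, hzero, ?_, ?_, ?_, ?_, ?_⟩
  · funext k
    by_cases hk : k = 0
    · rw [hk, (hzero 0).2, hψ0]
    · refine tendsto_nhds_unique (hθ 0 k) ?_
      refine (tendsto_const_nhds (x := ψ k)).congr' ?_
      filter_upwards [ev_mem hk] with n hn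
      exact (hΘ0 n k hn).symm
  · intro t k
    constructor
    · refine tendsto_nhds_unique (hw t (-k)) ?_
      have h1 : Tendsto (fun n => conj (W n t k)) 𝒰 (𝓝 (conj (w t k))) :=
        (Complex.continuous_conj.tendsto _).comp (hw t k)
      refine h1.congr fun n => ?_
      exact ((hsym n t k).1).symm
    · refine tendsto_nhds_unique (hθ t (-k)) ?_
      have h1 : Tendsto (fun n => conj (Θ n t k)) 𝒰 (𝓝 (conj (θ t k))) :=
        (Complex.continuous_conj.tendsto _).comp (hθ t k)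
      refine h1.congr fun n => ?_
      exact ((hsym n t k).2).symm
  · intro t
    exact HB_of_tendsto (hθ t) (Eventually.of_forall fun n => hΘb n t)
  · intro t
    exact HB_of_tendsto (hw t) ((ev_ge t).mono fun n hn => hWb n t hn)
  · intro t k
    by_cases hk : k = 0
    · subst hk
      have h1 : (fun s => w s 0) = fun _ => (0 : ℂ) := by funext s; exact (hzero s).1
      rw [h1]
      have h2 : rW ν g κ (w t) (θ t) 0 = 0 := by
        unfold rW
        rw [NN_zero, (hzero t).1, (hzero t).2]; simp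
      rw [h2]
      exact hasDerivAt_const t (0 : ℂ)
    refine hasDerivAt_lim (f := fun n s => W n s k) (g := fun n s => rW ν g κ (W n s) (Θ n s) k)
      (fun s => hw s k) (hlimW t k) ?_
    intro ε hε
    obtain ⟨δ, hδ, h⟩ := hmod a ha0 W k t hWb hWLip (ε / 2) (half_pos hε)
    set C : ℝ := (‖mA ν κ k‖ + ‖mG g κ k‖) * Λ k with hC
    have hC0 : 0 ≤ C := mul_nonneg (by positivity) (hΛ0 k)
    refine ⟨min δ (ε / 2 / (C + 1)), by positivity, ?_⟩
    filter_upwards [h, ev_mem hk, ev_ge t] with n hn hkn htn s hs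
    obtain ⟨hsn, hmodn⟩ := hn s (lt_of_lt_of_le hs (min_le_left _ _))
    have hs2 : |s - t| < ε / 2 / (C + 1) := lt_of_lt_of_le hs (min_le_right _ _)
    refine ⟨hWd n s hsn k hkn, ?_⟩
    have h1 : rW ν g κ (W n s) (Θ n s) k - rW ν g κ (W n t) (Θ n t) k
        = -(NN (W n s) (W n s) k - NN (W n t) (W n t) k)
          + (-(mA ν κ k * (W n s k - W n t k)) + mG g κ k * (Θ n s k - Θ n t k)) := by
      unfold rW; ring
    rw [h1]
    refine (norm_add_le _ _).trans ?_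
    rw [norm_neg]
    have h2 : ‖-(mA ν κ k * (W n s k - W n t k)) + mG g κ k * (Θ n s k - Θ n t k)‖ ≤ C * |s - t| := by
      refine (norm_add_le _ _).trans ?_
      rw [norm_neg, norm_mul, norm_mul, hC]
      have h3 := mul_le_mul_of_nonneg_left (hWLip n s t hsn htn k) (norm_nonneg (mA ν κ k))
      have h4 := mul_le_mul_of_nonneg_left (hΘLip n s t hsn htn k) (norm_nonneg (mG g κ k))
      nlinarith
    have h3 : C * |s - t| ≤ ε / 2 := by
      have h4 : (C + 1) * |s - t| ≤ (C + 1) * (ε / 2 / (C + 1)) :=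
        mul_le_mul_of_nonneg_left hs2.le (by positivity)
      have h5 : (C + 1) * (ε / 2 / (C + 1)) = ε / 2 := by field_simp
      have h6 := abs_nonneg (s - t)
      nlinarith
    linarith
  · intro t k
    by_cases hk : k = 0
    · subst hk
      have h1 : (fun s => θ s 0) = fun _ => (0 : ℂ) := by funext s; exact (hzero s).2
      rw [h1]
      have h2 : rT (w t) (θ t) 0 = 0 := by
        unfold rT
        rw [NN_zero]; simp
      rw [h2]
      exact hasDerivAt_const t (0 : ℂ)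
    refine hasDerivAt_lim (f := fun n s => Θ n s k) (g := fun n s => rT (W n s) (Θ n s) k)
      (fun s => hθ s k) (hlimT t k) ?_
    intro ε hε
    obtain ⟨δ, hδ, h⟩ := hmod ρ hρ0 Θ k t (fun n s _ => hΘb n s) hΘLip ε hε
    refine ⟨δ, hδ, ?_⟩
    filter_upwards [h, ev_mem hk] with n hn hkn s hs
    obtain ⟨hsn, hmodn⟩ := hn s hs
    refine ⟨hΘd n s hsn k hkn, ?_⟩
    have h1 : rT (W n s) (Θ n s) k - rT (W n t) (Θ n t) k
        = -(NN (W n s) (Θ n s) k - NN (W n t) (Θ n t) k) := by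
      unfold rT; ring
    rw [h1, norm_neg]
    exact hmodn

end Pool.Agent.X98.BQ
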