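import Mathlib

/-!
# The semi-dissipative Boussinesq system on the two-dimensional torus: definitions

Functions on `𝕋² = ℝ²/(Lℤ²)` are given by their Fourier coefficients: with `κ = 2π/L`, the function
`f(x) = Σ_k f_k exp(i κ k·x)` is represented by the family `f : ℤ × ℤ → ℂ`, and `L²`-functions by
square-summable families (Parseval).  Testing an equation against a trigonometric polynomial means
comparing Fourier coefficients; testing the momentum equation against the divergence-free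
trigonometric polynomials means taking the component of the `k`-th coefficient along
`k^⊥ = (-k₂, k₁)` for every `k`.
-/

set_option autoImplicit false

open scoped ComplexConjugate
open MeasureTheory Set Filter

namespace Pool.Agent.X98.BQ.Sys

/-- A real-valued mean-free function in `L²(𝕋²)`, given by its Fourier coefficients. -/
structure IsField (f : ℤ × ℤ → ℂ) : Prop where
  mean : f 0 = 0
  real : ∀ k, f (-k) = conj (f k)
  square_summable : Summable fun k => ‖f k‖ ^ 2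

/-- A velocity in `H`: a mean-free, divergence-free vector field in `L²(𝕋²)²`. -/
structure IsVelocity (u : ℤ × ℤ → ℂ × ℂ) : Prop where
  fst : IsField fun k => (u k).1
  snd : IsField fun k => (u k).2
  divergence : ∀ k : ℤ × ℤ, (k.1 : ℂ) * (u k).1 + (k.2 : ℂ) * (u k).2 = 0

/-- The square of the `L²`-norm (for the normalised Lebesgue measure). -/
noncomputable def normSq (f : ℤ × ℤ → ℂ) : ℝ := ∑' k, ‖f k‖ ^ 2

/-- The square of the norm of `(u, θ)` in `H × L²`. -/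
noncomputable def energy (u : ℤ × ℤ → ℂ × ℂ) (θ : ℤ × ℤ → ℂ) : ℝ :=
  normSq (fun k => (u k).1) + normSq (fun k => (u k).2) + normSq θ

/-- `|k|²` -/
def sqNorm (k : ℤ × ℤ) : ℝ := (k.1 : ℝ) ^ 2 + (k.2 : ℝ) ^ 2

/-- `κ₀ = 2π/L` -/
noncomputable def kap (L : ℝ) : ℝ := 2 * Real.pi / L

/-- The `k`-th Fourier coefficient of `∇·(u f)`, namely `i κ₀ Σ_l (k · u_l) f_{k-l}`. -/
noncomputable def divFlux (L : ℝ) (u : ℤ × ℤ → ℂ × ℂ) (f : ℤ × ℤ → ℂ) (k : ℤ × ℤ) : ℂ :=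
  Complex.I * (kap L : ℂ) *
    ∑' l : ℤ × ℤ, ((k.1 : ℂ) * (u l).1 + (k.2 : ℂ) * (u l).2) * f (k - l)

/-- The component of a vector `v ∈ ℂ²` along `k^⊥ = (-k₂, k₁)`. -/
def perp (k : ℤ × ℤ) (v : ℂ × ℂ) : ℂ := -(k.2 : ℂ) * v.1 + (k.1 : ℂ) * v.2

/-- The right-hand side `-(u·∇)u + ν Δu + θ 𝐠` of the momentum equation (with `(u·∇)u = ∇·(u ⊗ u)`),
tested against `k^⊥ exp(i κ₀ k·x)`; the pressure gradient drops out. -/
noncomputable def momentumRHS (L ν g : ℝ) (u : ℤ × ℤ → ℂ × ℂ) (θ : ℤ × ℤ → ℂ) (k : ℤ × ℤ) : ℂ :=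
  -perp k (divFlux L u (fun j => (u j).1) k, divFlux L u (fun j => (u j).2) k)
    - ((ν * kap L ^ 2 * sqNorm k : ℝ) : ℂ) * perp k (u k) + perp k (0, (g : ℂ) * θ k)

/-- `(u, θ)` is a solution on the interval `I`, in the sense of the problem file:
`u ∈ C_w(I;H) ∩ L²_loc(I;V)`, `θ ∈ C_w(I;L²)` (weak continuity: locally bounded and all Fourier
coefficients continuous), the momentum equation holds when tested against every divergence-free
trigonometric polynomial and the transport equation `∂_t θ + ∇·(uθ) = 0` holds when tested against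
every trigonometric polynomial (integrated in time). -/
structure IsSolution (L ν g : ℝ) (I : Set ℝ) (u : ℝ → ℤ × ℤ → ℂ × ℂ) (θ : ℝ → ℤ × ℤ → ℂ) : Prop where
  velocity : ∀ t ∈ I, IsVelocity (u t)
  temperature : ∀ t ∈ I, IsField (θ t)
  continuous_velocity : ∀ k, ContinuousOn (fun t => u t k) I
  continuous_temperature : ∀ k, ContinuousOn (fun t => θ t k) I
  locally_bounded : ∀ a b, Icc a b ⊆ I → ∃ C : ℝ, ∀ t ∈ Icc a b, energy (u t) (θ t) ≤ C
  square_integrable_in_V : ∀ a b, Icc a b ⊆ I →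
    ∫⁻ t in Icc a b, ∑' k : ℤ × ℤ,
      ENNReal.ofReal (sqNorm k * (‖(u t k).1‖ ^ 2 + ‖(u t k).2‖ ^ 2)) < ⊤
  momentum : ∀ (k : ℤ × ℤ) (a b : ℝ), a ≤ b → Icc a b ⊆ I →
    IntervalIntegrable (fun t => momentumRHS L ν g (u t) (θ t) k) volume a b ∧
      perp k (u b k) - perp k (u a k) = ∫ t in a..b, momentumRHS L ν g (u t) (θ t) k
  transport : ∀ (k : ℤ × ℤ) (a b : ℝ), a ≤ b → Icc a b ⊆ I →
    IntervalIntegrable (fun t => divFlux L (u t) (θ t) k) volume a b ∧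
      θ b k - θ a k = -∫ t in a..b, divFlux L (u t) (θ t) k

/-- The attractor: values at time `0` of the solutions on `ℝ` that are bounded in `H × L²`. -/
def attractor (L ν g : ℝ) : Set ((ℤ × ℤ → ℂ × ℂ) × (ℤ × ℤ → ℂ)) :=
  {p | ∃ (u : ℝ → ℤ × ℤ → ℂ × ℂ) (θ : ℝ → ℤ × ℤ → ℂ), IsSolution L ν g univ u θ ∧
    (∃ C : ℝ, ∀ t, energy (u t) (θ t) ≤ C) ∧ u 0 = p.1 ∧ θ 0 = p.2}

/-- Weak convergence in `H × L²`: bounded in norm, with convergence of all Fourier coefficients. -/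
def WeakLimit (u : ℕ → ℤ × ℤ → ℂ × ℂ) (θ : ℕ → ℤ × ℤ → ℂ) (u' : ℤ × ℤ → ℂ × ℂ) (θ' : ℤ × ℤ → ℂ) :
    Prop :=
  (∃ C : ℝ, ∀ n, energy (u n) (θ n) ≤ C) ∧ (∀ k, Tendsto (fun n => u n k) atTop (nhds (u' k))) ∧
    ∀ k, Tendsto (fun n => θ n k) atTop (nhds (θ' k))

/-- The weak sigma-attractor: weak limits in `X = H × L²` of `S(t_n)(u_n, θ_n)` with `t_n → ∞` and
`(u_n, θ_n)` bounded in `X`; `S(t)(u_0, θ_0)` is the value at time `t` of the solution on `[0, ∞)`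
with initial value `(u_0, θ_0)`. -/
def sigmaAttractor (L ν g : ℝ) : Set ((ℤ × ℤ → ℂ × ℂ) × (ℤ × ℤ → ℂ)) :=
  {p | IsVelocity p.1 ∧ IsField p.2 ∧
    ∃ (t : ℕ → ℝ) (u : ℕ → ℝ → ℤ × ℤ → ℂ × ℂ) (θ : ℕ → ℝ → ℤ × ℤ → ℂ), Tendsto t atTop atTop ∧
      (∀ n, 0 ≤ t n) ∧ (∀ n, IsSolution L ν g (Ici 0) (u n) (θ n)) ∧
      (∃ C : ℝ, ∀ n, energy (u n 0) (θ n 0) ≤ C) ∧
      WeakLimit (fun n => u n (t n)) (fun n => θ n (t n)) p.1 p.2}

end Pool.Agent.X98.BQ.Sys
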