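import Pool.Agent.X98.BQ.Core
import Pool.Agent.X98.BQ.Defs

/-!
Every mean-free temperature in `L²` is the temperature component of a point of the attractor.
-/

set_option autoImplicit false

open scoped NNReal Topology InnerProductSpace ComplexConjugate
open Set Metric Filter MeasureTheory

namespace Pool.Agent.X98.BQ

open Sys

lemma sqNorm_eq (k : Md) : sqNorm k = sqn k := rfl

lemma HB_of_isField {f : Md → ℂ} (hf : IsField f) : HB f (Real.sqrt (normSq f)) := by
  intro J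
  have h0 : 0 ≤ normSq f := tsum_nonneg fun _ => sq_nonneg _
  rw [Real.sq_sqrt h0]
  exact hf.square_summable.sum_le_tsum J (fun _ _ => sq_nonneg _)

lemma summable_of_HB {f : Md → ℂ} {a : ℝ} (h : HB f a) : Summable fun k => ‖f k‖ ^ 2 :=
  summable_of_sum_le (fun _ => sq_nonneg _) h

lemma normSq_le_of_HB {f : Md → ℂ} {a : ℝ} (h : HB f a) : normSq f ≤ a ^ 2 :=
  (summable_of_HB h).tsum_le_of_sum_le h

/-- the velocity with vorticity `w` -/
noncomputable def vel (κ : ℝ) (w : Md → ℂ) (k : Md) : ℂ × ℂ :=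
  (Complex.I * ((k.2 / (κ * sqn k) : ℝ) : ℂ) * w k, -(Complex.I * ((k.1 / (κ * sqn k) : ℝ) : ℂ) * w k))

lemma perp_vel_coef (κ : ℝ) (w : Md → ℂ) (k m : Md) :
    perp k (vel κ w m) = -(Complex.I * (((k.1 * m.1 + k.2 * m.2) / (κ * sqn m) : ℝ) : ℂ) * w m) := by
  unfold perp vel
  simp only []
  push_cast
  ring

lemma dot_vel {κ : ℝ} (hκ : κ ≠ 0) (w : Md → ℂ) (k l : Md) :
    (k.1 : ℂ) * (vel κ w l).1 + (k.2 : ℂ) * (vel κ w l).2
      = -(Complex.I / κ) * ((ee k l : ℂ) * w l) := by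
  unfold vel ee
  simp only []
  have h : (κ : ℂ) ≠ 0 := by exact_mod_cast hκ
  by_cases hl : sqn l = 0
  · rw [hl]; simp
  have h2 : ((sqn l : ℝ) : ℂ) ≠ 0 := by exact_mod_cast hl
  push_cast
  field_simp
  ring

lemma divFlux_vel {L : ℝ} (hL : 0 < L) (w f : Md → ℂ) (k : Md) :
    divFlux L (vel (kap L) w) f k = NN w f k := by
  have hκ : kap L ≠ 0 := by unfold kap; positivity
  have hκ' : (kap L : ℂ) ≠ 0 := by exact_mod_cast hκ
  unfold divFlux NN
  have h1 : ∀ l : Md, ((k.1 : ℂ) * (vel (kap L) w l).1 + (k.2 : ℂ) * (vel (kap L) w l).2) * f (k - l)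
      = -(Complex.I / kap L) * ((ee k l : ℂ) * w l * f (k - l)) := by
    intro l
    rw [dot_vel hκ]; ring
  simp only [h1]
  rw [tsum_mul_left, ← mul_assoc]
  have h2 : Complex.I * (kap L : ℂ) * -(Complex.I / kap L) = 1 := by
    field_simp
    rw [Complex.I_sq]; ring
  rw [h2, one_mul]

lemma vel_norm {κ : ℝ} {w : Md → ℂ} (k : Md) :
    ‖(vel κ w k).1‖ ^ 2 + ‖(vel κ w k).2‖ ^ 2 = ‖w k‖ ^ 2 * (sqn k / (κ * sqn k) ^ 2) := by
  unfold vel
  simp only [norm_neg, norm_mul, Complex.norm_I, one_mul, Complex.norm_real, Real.norm_eq_abs,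
    mul_pow, sq_abs, div_pow]
  have h : sqn k = (k.1 : ℝ) ^ 2 + (k.2 : ℝ) ^ 2 := rfl
  rw [← mul_pow, show ‖w k‖ ^ 2 * (sqn k / (κ * sqn k) ^ 2)
    = ‖w k‖ ^ 2 * (((k.1 : ℝ) ^ 2 + (k.2 : ℝ) ^ 2) / (κ * sqn k) ^ 2) by rw [← h]]
  ring

lemma vel_norm_le {κ : ℝ} (hκ : 0 < κ) {w : Md → ℂ} (k : Md) :
    ‖(vel κ w k).1‖ ^ 2 + ‖(vel κ w k).2‖ ^ 2 ≤ ‖w k‖ ^ 2 / κ ^ 2 := by
  have h0 : ‖w k‖ ^ 2 / κ ^ 2 = ‖w k‖ ^ 2 * (1 / κ ^ 2) := by ring
  rw [vel_norm, h0]
  refine mul_le_mul_of_nonneg_left ?_ (sq_nonneg _)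
  by_cases hk : k = 0
  · subst hk
    have : sqn 0 = 0 := by unfold sqn; simp
    rw [this]; simp; positivity
  have h1 := one_le_sqn hk
  rw [div_le_div_iff₀ (by positivity) (by positivity), one_mul, mul_pow]
  have h2 : sqn k ≤ sqn k ^ 2 := by nlinarith
  have h3 : 0 < κ ^ 2 := by positivity
  nlinarith

lemma vel_V_le {κ : ℝ} (hκ : 0 < κ) {w : Md → ℂ} (k : Md) :
    sqn k * (‖(vel κ w k).1‖ ^ 2 + ‖(vel κ w k).2‖ ^ 2) ≤ ‖w k‖ ^ 2 / κ ^ 2 := by
  rw [vel_norm]
  by_cases hk : k = 0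
  · subst hk
    have : sqn 0 = 0 := by unfold sqn; simp
    rw [this]; simp; positivity
  have h1 := one_le_sqn hk
  have h2 : sqn k ≠ 0 := by linarith
  apply le_of_eq
  field_simp

lemma isVelocity_vel {κ : ℝ} (hκ : 0 < κ) {w : Md → ℂ} {a : ℝ} (hb : HB w a)
    (hsym : ∀ k, w (-k) = conj (w k)) : IsVelocity (vel κ w) := by
  have hs : Summable fun k => ‖(vel κ w k).1‖ ^ 2 + ‖(vel κ w k).2‖ ^ 2 :=
    Summable.of_nonneg_of_le (fun _ => by positivity) (fun k => vel_norm_le hκ k)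
      ((summable_of_HB hb).div_const _)
  refine ⟨⟨?_, ?_, ?_⟩, ⟨?_, ?_, ?_⟩, ?_⟩
  · unfold vel; simp
  · intro k
    unfold vel
    simp only [map_mul, Complex.conj_I, Complex.conj_ofReal, sqn_neg, hsym, Prod.snd_neg,
      Int.cast_neg, neg_div, Complex.ofReal_neg]
    ring
  · exact Summable.of_nonneg_of_le (fun _ => sq_nonneg _)
      (fun k => le_add_of_nonneg_right (sq_nonneg _)) hs
  · unfold vel; simp
  · intro k
    unfold vel
    simp only [map_mul, map_neg, Complex.conj_I, Complex.conj_ofReal, sqn_neg, hsym, Prod.fst_neg,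
      Int.cast_neg, neg_div, Complex.ofReal_neg]
    ring
  · exact Summable.of_nonneg_of_le (fun _ => sq_nonneg _)
      (fun k => le_add_of_nonneg_left (sq_nonneg _)) hs
  · intro k
    unfold vel
    simp only []
    push_cast
    ring

lemma HB_vel1 {κ : ℝ} (hκ : 0 < κ) {w : Md → ℂ} {a : ℝ} (hb : HB w a) :
    HB (fun j => (vel κ w j).1) (a / κ) := by
  intro J
  calc ∑ j ∈ J, ‖(vel κ w j).1‖ ^ 2 ≤ ∑ j ∈ J, ‖w j‖ ^ 2 / κ ^ 2 :=
        Finset.sum_le_sum fun j _ => (le_add_of_nonneg_right (sq_nonneg _)).trans (vel_norm_le hκ j)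
    _ = (∑ j ∈ J, ‖w j‖ ^ 2) / κ ^ 2 := by rw [Finset.sum_div]
    _ ≤ a ^ 2 / κ ^ 2 := div_le_div_of_nonneg_right (hb J) (sq_nonneg _)
    _ = (a / κ) ^ 2 := by rw [div_pow]

lemma HB_vel2 {κ : ℝ} (hκ : 0 < κ) {w : Md → ℂ} {a : ℝ} (hb : HB w a) :
    HB (fun j => (vel κ w j).2) (a / κ) := by
  intro J
  calc ∑ j ∈ J, ‖(vel κ w j).2‖ ^ 2 ≤ ∑ j ∈ J, ‖w j‖ ^ 2 / κ ^ 2 :=
        Finset.sum_le_sum fun j _ => (le_add_of_nonneg_left (sq_nonneg _)).trans (vel_norm_le hκ j)
    _ = (∑ j ∈ J, ‖w j‖ ^ 2) / κ ^ 2 := by rw [Finset.sum_div]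
    _ ≤ a ^ 2 / κ ^ 2 := div_le_div_of_nonneg_right (hb J) (sq_nonneg _)
    _ = (a / κ) ^ 2 := by rw [div_pow]

/-- the nonlinear term of the momentum equation is the transport term of the vorticity equation -/
lemma momentum_nonlinear {L : ℝ} (hL : 0 < L) {w : Md → ℂ} {a : ℝ} (ha : 0 ≤ a) (hb : HB w a)
    (hw0 : w 0 = 0) (k : Md) :
    perp k (divFlux L (vel (kap L) w) (fun j => (vel (kap L) w j).1) k,
      divFlux L (vel (kap L) w) (fun j => (vel (kap L) w j).2) k)
      = -(Complex.I / kap L) * NN w w k := by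
  have hκp : 0 < kap L := by unfold kap; positivity
  have hκ : kap L ≠ 0 := hκp.ne'
  have hκ' : (kap L : ℂ) ≠ 0 := by exact_mod_cast hκ
  rw [divFlux_vel hL, divFlux_vel hL]
  have hb1 := HB_vel1 hκp hb
  have hb2 := HB_vel2 hκp hb
  have hak : 0 ≤ a / kap L := by positivity
  have hs1 := (summable_term ha hak hb hb1 k).of_norm
  have hs2 := (summable_term ha hak hb hb2 k).of_norm
  have hsA := (summable_term ha ha hb hb k).of_norm
  -- the antisymmetric part
  set d : Md → Md → ℝ := fun l m =>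
    (((l.1 : ℝ) * m.2 - (l.2 : ℝ) * m.1) * ((l.1 : ℝ) * m.1 + (l.2 : ℝ) * m.2)) / (sqn l * sqn m) with hd
  set D : Md → ℂ := fun l => (d l (k - l) : ℂ) * w l * w (k - l) with hD
  have hdle : ∀ l m, |d l m| ≤ 1 := by
    intro l m
    simp only [hd]
    rw [abs_div, abs_of_nonneg (mul_nonneg (sqn_nonneg l) (sqn_nonneg m))]
    apply div_le_one_of_le₀ _ (mul_nonneg (sqn_nonneg l) (sqn_nonneg m))
    rw [abs_mul]
    have h1 : ((l.1 : ℝ) * m.2 - (l.2 : ℝ) * m.1) ^ 2 + ((l.1 : ℝ) * m.1 + (l.2 : ℝ) * m.2) ^ 2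
        = sqn l * sqn m := by unfold sqn; ring
    have h2 := sq_abs ((l.1 : ℝ) * m.2 - (l.2 : ℝ) * m.1)
    have h3 := sq_abs ((l.1 : ℝ) * m.1 + (l.2 : ℝ) * m.2)
    nlinarith [sq_nonneg (|(l.1 : ℝ) * m.2 - (l.2 : ℝ) * m.1| - |(l.1 : ℝ) * m.1 + (l.2 : ℝ) * m.2|),
      abs_nonneg ((l.1 : ℝ) * m.2 - (l.2 : ℝ) * m.1), abs_nonneg ((l.1 : ℝ) * m.1 + (l.2 : ℝ) * m.2)]
  have hsD : Summable D := by
    have h1 : Summable fun l => ‖w l‖ * ‖w (k - l)‖ :=
      summable_of_sum_le (fun _ => by positivity) (fun J => sum_prod_le ha ha hb hb k J)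
    refine Summable.of_norm_bounded h1 fun l => ?_
    simp only [hD]
    rw [norm_mul, norm_mul, Complex.norm_real, Real.norm_eq_abs, mul_assoc]
    have h2 := hdle l (k - l)
    have h3 : 0 ≤ ‖w l‖ * ‖w (k - l)‖ := by positivity
    nlinarith
  have hD0 : ∑' l, D l = 0 := by
    have h1 : ∀ l, D (k - l) = -D l := by
      intro l
      simp only [hD, sub_sub_cancel]
      have h2 : d (k - l) l = -d l (k - l) := by
        simp only [hd]
        rw [← neg_div, mul_comm (sqn l)]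
        congr 1
        ring
      rw [h2]
      push_cast
      ring
    have h2 := (Equiv.subLeft k).tsum_eq D
    simp only [Equiv.subLeft_apply, h1, tsum_neg] at h2
    have h3 : (2 : ℂ) * ∑' l, D l = 0 := by linear_combination -h2
    rcases mul_eq_zero.1 h3 with h4 | h4
    · norm_num at h4
    · exact h4
  have hterm : ∀ l, -(k.2 : ℂ) * ((ee k l : ℂ) * w l * (vel (kap L) w (k - l)).1)
      + (k.1 : ℂ) * ((ee k l : ℂ) * w l * (vel (kap L) w (k - l)).2)
      = -(Complex.I / kap L) * ((ee k l : ℂ) * w l * w (k - l) + D l) := by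
    intro l
    have h1 := perp_vel_coef (kap L) w k (k - l)
    unfold perp at h1
    have h2 : -(k.2 : ℂ) * ((ee k l : ℂ) * w l * (vel (kap L) w (k - l)).1)
      + (k.1 : ℂ) * ((ee k l : ℂ) * w l * (vel (kap L) w (k - l)).2)
      = (ee k l : ℂ) * w l * (-(k.2 : ℂ) * (vel (kap L) w (k - l)).1
        + (k.1 : ℂ) * (vel (kap L) w (k - l)).2) := by ring
    rw [h2, h1]
    by_cases hm : k - l = 0
    · simp only [hD]
      rw [hm, hw0]; simp
    by_cases hl : l = 0
    · subst hl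
      have h3 : ee k 0 = 0 := by unfold ee; simp
      simp only [hD, hd]
      rw [h3]; simp
    have h3 : sqn l ≠ 0 := by have := one_le_sqn hl; linarith
    have h4 : sqn (k - l) ≠ 0 := by have := one_le_sqn hm; linarith
    have h5 : ee k l * ((k.1 * (k - l).1 + k.2 * (k - l).2) / (kap L * sqn (k - l)))
        = 1 / kap L * (ee k l + d l (k - l)) := by
      simp only [hd]
      have h6 : (k.1 : ℝ) = l.1 + ((k - l).1 : ℤ) := by
        rw [Prod.fst_sub]; push_cast; ring
      have h7 : (k.2 : ℝ) = l.2 + ((k - l).2 : ℤ) := by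
        rw [Prod.snd_sub]; push_cast; ring
      unfold ee
      rw [h6, h7]
      generalize k - l = m at *
      field_simp
      unfold sqn
      ring
    have h6 : (ee k l : ℂ) * (((k.1 * (k - l).1 + k.2 * (k - l).2) / (kap L * sqn (k - l)) : ℝ) : ℂ)
        = 1 / (kap L : ℂ) * ((ee k l : ℂ) + (d l (k - l) : ℂ)) := by
      rw [← Complex.ofReal_mul, h5]
      push_cast
      ring
    simp only [hD]
    linear_combination (-Complex.I * w l * w (k - l)) * h6
  unfold perp NN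
  simp only []
  rw [← tsum_mul_left, ← tsum_mul_left, ← (hs1.mul_left _).tsum_add (hs2.mul_left _)]
  rw [tsum_congr hterm, tsum_mul_left, hsA.tsum_add hsD, hD0, add_zero]

lemma perp_vel_self {κ : ℝ} {w : Md → ℂ} {k : Md} (hk : k ≠ 0) :
    perp k (vel κ w k) = -(Complex.I / κ) * w k := by
  rw [perp_vel_coef]
  have h1 : sqn k ≠ 0 := by have := one_le_sqn hk; linarith
  have h2 : ((k.1 : ℝ) * k.1 + k.2 * k.2) / (κ * sqn k) = 1 / κ := by
    have h3 : (k.1 : ℝ) * k.1 + k.2 * k.2 = sqn k := by unfold sqn; ring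
    rw [h3, mul_comm, ← div_div, div_self h1]
  rw [h2]
  push_cast
  ring

lemma momentumRHS_vel {L ν g : ℝ} (hL : 0 < L) {w θ : Md → ℂ} {a : ℝ} (ha : 0 ≤ a) (hb : HB w a)
    (hw0 : w 0 = 0) (k : Md) :
    momentumRHS L ν g (vel (kap L) w) θ k = -(Complex.I / kap L) * rW ν g (kap L) w θ k := by
  have hκp : 0 < kap L := by unfold kap; positivity
  have hκ' : (kap L : ℂ) ≠ 0 := by exact_mod_cast hκp.ne'
  unfold momentumRHS
  rw [momentum_nonlinear hL ha hb hw0 k]
  have h1 : perp k (0, (g : ℂ) * θ k) = (k.1 : ℂ) * (g * θ k) := by unfold perp; simp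
  rw [h1]
  unfold rW mA mG
  by_cases hk : k = 0
  · subst hk
    rw [NN_zero]
    have h2 : sqNorm 0 = 0 := by unfold sqNorm; simp
    have h3 : sqn 0 = 0 := h2
    rw [h2, h3]
    simp
  · rw [perp_vel_self hk, sqNorm_eq]
    push_cast
    field_simp
    linear_combination ((g * k.1 * θ k * kap L) : ℂ) * Complex.I_sq

/-- **Main theorem.** Every mean-free temperature is attained at time `0` by a complete bounded
solution. -/
theorem complete {L ν g : ℝ} (hL : 0 < L) (hν : 0 < ν) (hg : 0 < g) (ψ : Md → ℂ)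
    (hψ : IsField ψ) : ∃ (u : ℝ → Md → ℂ × ℂ) (θ : ℝ → Md → ℂ), IsSolution L ν g univ u θ ∧
      (∃ C : ℝ, ∀ t, energy (u t) (θ t) ≤ C) ∧ θ 0 = ψ := by
  have hκp : 0 < kap L := by unfold kap; positivity
  have hκ' : (kap L : ℂ) ≠ 0 := by exact_mod_cast hκp.ne'
  obtain ⟨w, θ, hθ0, hzero, hsym, hθb, hwb, hwd, hθd⟩ := core hν hg hκp ψ hψ.real hψ.mean
    (Real.sqrt_nonneg (normSq ψ)) (HB_of_isField hψ)
  set ρ : ℝ := Real.sqrt (normSq ψ) with hρ
  have hρ0 : 0 ≤ ρ := Real.sqrt_nonneg _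
  set a : ℝ := g / (ν * kap L) * ρ with ha
  have ha0 : 0 ≤ a := by positivity
  have hwc : ∀ k, Continuous fun t => w t k := fun k =>
    continuous_iff_continuousAt.2 fun t => (hwd t k).continuousAt
  have hθc : ∀ k, Continuous fun t => θ t k := fun k =>
    continuous_iff_continuousAt.2 fun t => (hθd t k).continuousAt
  have hNW : ∀ k, Continuous fun t => NN (w t) (w t) k := by
    intro k
    rw [continuous_iff_continuousAt]
    intro t
    exact tendsto_NN ha0 ha0 (fun k => (hwc k).tendsto t) (fun k => (hwc k).tendsto t)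
      (Eventually.of_forall hwb) (Eventually.of_forall hwb) k
  have hNT : ∀ k, Continuous fun t => NN (w t) (θ t) k := by
    intro k
    rw [continuous_iff_continuousAt]
    intro t
    exact tendsto_NN ha0 hρ0 (fun k => (hwc k).tendsto t) (fun k => (hθc k).tendsto t)
      (Eventually.of_forall hwb) (Eventually.of_forall hθb) k
  have hrWc : ∀ k, Continuous fun t => rW ν g (kap L) (w t) (θ t) k := by
    intro k
    unfold rW
    exact ((hNW k).neg.sub (continuous_const.mul (hwc k))).add (continuous_const.mul (hθc k))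
  have hE : ∀ t, energy (vel (kap L) (w t)) (θ t) ≤ (a / kap L) ^ 2 + (a / kap L) ^ 2 + ρ ^ 2 := by
    intro t
    unfold energy
    exact add_le_add (add_le_add (normSq_le_of_HB (HB_vel1 hκp (hwb t)))
      (normSq_le_of_HB (HB_vel2 hκp (hwb t)))) (normSq_le_of_HB (hθb t))
  refine ⟨fun t => vel (kap L) (w t), θ, ?_, ⟨_, hE⟩, hθ0⟩
  refine ⟨?_, ?_, ?_, ?_, ?_, ?_, ?_, ?_⟩
  · intro t _
    exact isVelocity_vel hκp (hwb t) (fun k => (hsym t k).1)
  · intro t _
    exact ⟨(hzero t).2, fun k => (hsym t k).2, summable_of_HB (hθb t)⟩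
  · intro k
    apply Continuous.continuousOn
    unfold vel
    exact (continuous_const.mul (hwc k)).prodMk (continuous_const.mul (hwc k)).neg
  · intro k
    exact (hθc k).continuousOn
  · intro x y _
    exact ⟨_, fun t _ => hE t⟩
  · intro x y _
    have h1 : ∀ t, ∑' k : Md, ENNReal.ofReal (sqNorm k * (‖(vel (kap L) (w t) k).1‖ ^ 2
        + ‖(vel (kap L) (w t) k).2‖ ^ 2)) ≤ ENNReal.ofReal (a ^ 2 / kap L ^ 2) := by
      intro t
      rw [ENNReal.tsum_eq_iSup_sum]
      refine iSup_le fun J => ?_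
      have hnn : ∀ k ∈ J, 0 ≤ sqNorm k * (‖(vel (kap L) (w t) k).1‖ ^ 2
          + ‖(vel (kap L) (w t) k).2‖ ^ 2) := fun k _ => mul_nonneg (sqn_nonneg k) (by positivity)
      rw [← ENNReal.ofReal_sum_of_nonneg hnn]
      apply ENNReal.ofReal_le_ofReal
      calc ∑ k ∈ J, sqNorm k * (‖(vel (kap L) (w t) k).1‖ ^ 2 + ‖(vel (kap L) (w t) k).2‖ ^ 2)
          ≤ ∑ k ∈ J, ‖w t k‖ ^ 2 / kap L ^ 2 := Finset.sum_le_sum fun k _ => vel_V_le hκp k
        _ = (∑ k ∈ J, ‖w t k‖ ^ 2) / kap L ^ 2 := by rw [Finset.sum_div]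
        _ ≤ a ^ 2 / kap L ^ 2 := div_le_div_of_nonneg_right (hwb t J) (sq_nonneg _)
    refine lt_of_le_of_lt (lintegral_mono h1) ?_
    rw [lintegral_const]
    apply ENNReal.mul_lt_top ENNReal.ofReal_lt_top
    rw [Measure.restrict_apply_univ, Real.volume_Icc]
    exact ENNReal.ofReal_lt_top
  · intro k x y _ _
    have h1 : ∀ t, momentumRHS L ν g (vel (kap L) (w t)) (θ t) k
        = -(Complex.I / kap L) * rW ν g (kap L) (w t) (θ t) k := fun t =>
      momentumRHS_vel hL ha0 (hwb t) (hzero t).1 k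
    simp only [h1]
    have hcont : Continuous fun t => -(Complex.I / kap L) * rW ν g (kap L) (w t) (θ t) k :=
      continuous_const.mul (hrWc k)
    refine ⟨hcont.intervalIntegrable x y, ?_⟩
    have h2 : ∀ t, perp k (vel (kap L) (w t) k) = -(Complex.I / kap L) * w t k := by
      intro t
      by_cases hk : k = 0
      · subst hk
        rw [(hzero t).1]
        unfold perp; simp
      · exact perp_vel_self hk
    rw [h2, h2]
    symm
    exact intervalIntegral.integral_eq_sub_of_hasDerivAt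
      (f := fun t => -(Complex.I / kap L) * w t k)
      (fun t _ => (hwd t k).const_mul _) (hcont.intervalIntegrable x y)
  · intro k x y _ _
    have h1 : ∀ t, divFlux L (vel (kap L) (w t)) (θ t) k = NN (w t) (θ t) k := fun t =>
      divFlux_vel hL (w t) (θ t) k
    simp only [h1]
    refine ⟨(hNT k).intervalIntegrable x y, ?_⟩
    rw [← intervalIntegral.integral_neg]
    symm
    exact intervalIntegral.integral_eq_sub_of_hasDerivAt (f := fun t => θ t k)
      (fun t _ => hθd t k) ((hNT k).neg.intervalIntegrable x y)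

/-- The temperature projection of the attractor is all of `L²`. -/
theorem projection_eq {L ν g : ℝ} (hL : 0 < L) (hν : 0 < ν) (hg : 0 < g) :
    {θ | ∃ u, (u, θ) ∈ attractor L ν g} = {θ | IsField θ} := by
  ext θ
  constructor
  · rintro ⟨u, v, τ, hs, -, -, hτ⟩
    have h1 := hs.temperature 0 (mem_univ _)
    rw [hτ] at h1
    exact h1
  · intro hθ
    obtain ⟨u, τ, hs, hC, h0⟩ := complete hL hν hg θ hθ
    exact ⟨u 0, u, τ, hs, hC, rfl, h0⟩

/-- A solution on `ℝ`, shifted in time, is a solution on `[0, ∞)`. -/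
lemma shift_solution {L ν g : ℝ} {u : ℝ → Md → ℂ × ℂ} {θ : ℝ → Md → ℂ}
    (h : IsSolution L ν g univ u θ) (c : ℝ) :
    IsSolution L ν g (Ici 0) (fun t => u (t - c)) (fun t => θ (t - c)) := by
  refine ⟨?_, ?_, ?_, ?_, ?_, ?_, ?_, ?_⟩
  · intro t _; exact h.velocity _ (mem_univ _)
  · intro t _; exact h.temperature _ (mem_univ _)
  · intro k
    have h1 := h.continuous_velocity k
    rw [continuousOn_univ] at h1
    exact (h1.comp (continuous_id.sub continuous_const)).continuousOn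
  · intro k
    have h1 := h.continuous_temperature k
    rw [continuousOn_univ] at h1
    exact (h1.comp (continuous_id.sub continuous_const)).continuousOn
  · intro a b _
    obtain ⟨C, hC⟩ := h.locally_bounded (a - c) (b - c) (subset_univ _)
    exact ⟨C, fun t ht => hC (t - c) ⟨by linarith [ht.1], by linarith [ht.2]⟩⟩
  · intro a b _
    have h1 := h.square_integrable_in_V (a - c) (b - c) (subset_univ _)
    set F : ℝ → ENNReal := fun t => ∑' k : Md,
      ENNReal.ofReal (sqNorm k * (‖(u t k).1‖ ^ 2 + ‖(u t k).2‖ ^ 2)) with hF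
    have hmp : MeasurePreserving (fun t : ℝ => t - c) (volume.restrict (Icc a b))
        (volume.restrict (Icc (a - c) (b - c))) := by
      have h2 : MeasurePreserving (fun t : ℝ => t - c) volume volume :=
        measurePreserving_sub_right volume c
      have h3 : (fun t : ℝ => t - c) ⁻¹' (Icc (a - c) (b - c)) = Icc a b := by
        ext t; simp only [mem_preimage, mem_Icc]
        constructor
        · rintro ⟨h4, h5⟩; exact ⟨by linarith, by linarith⟩
        · rintro ⟨h4, h5⟩; exact ⟨by linarith, by linarith⟩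
      have h4 := h2.restrict_preimage (measurableSet_Icc (a := a - c) (b := b - c))
      rwa [h3] at h4
    have h5 : MeasurableEmbedding (fun t : ℝ => t - c) :=
      (Homeomorph.subRight c).measurableEmbedding
    have h6 := hmp.lintegral_comp_emb h5 F
    change ∫⁻ t in Icc a b, F (t - c) < ⊤
    rw [h6]
    exact h1
  · intro k a b hab _
    obtain ⟨h1, h2⟩ := h.momentum k (a - c) (b - c) (by linarith) (subset_univ _)
    refine ⟨?_, ?_⟩
    · have h3 := h1.comp_sub_right c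
      simpa using h3
    · rw [h2]
      rw [intervalIntegral.integral_comp_sub_right (fun t => momentumRHS L ν g (u t) (θ t) k)]
  · intro k a b hab _
    obtain ⟨h1, h2⟩ := h.transport k (a - c) (b - c) (by linarith) (subset_univ _)
    refine ⟨?_, ?_⟩
    · have h3 := h1.comp_sub_right c
      simpa using h3
    · rw [h2]
      rw [intervalIntegral.integral_comp_sub_right (fun t => divFlux L (u t) (θ t) k)]

/-- The temperature projection of the weak sigma-attractor is all of `L²`. -/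
theorem sigma_projection_eq {L ν g : ℝ} (hL : 0 < L) (hν : 0 < ν) (hg : 0 < g) :
    {θ | ∃ u, (u, θ) ∈ sigmaAttractor L ν g} = {θ | IsField θ} := by
  ext θ
  constructor
  · rintro ⟨u, -, hθ, -⟩
    exact hθ
  · intro hθ
    obtain ⟨u, τ, hs, ⟨C, hC⟩, h0⟩ := complete hL hν hg θ hθ
    refine ⟨u 0, hs.velocity 0 (mem_univ _), hθ, fun n => (n : ℝ), fun n t => u (t - n),
      fun n t => τ (t - n), tendsto_natCast_atTop_atTop, fun n => Nat.cast_nonneg n,
      fun n => shift_solution hs n, ⟨C, fun n => hC _⟩, ?_⟩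
    refine ⟨⟨C, fun n => hC _⟩, fun k => ?_, fun k => ?_⟩
    · simp only [sub_self]
      exact tendsto_const_nhds
    · simp only [sub_self, h0]
      exact tendsto_const_nhds

end Pool.Agent.X98.BQ
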