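import Pool.Agent.X98.BQ.TwoPoint

/-!
The Galerkin approximations of the semi-dissipative Boussinesq system on the Fourier side, in
vorticity form.
-/

set_option autoImplicit false

open scoped NNReal Topology InnerProductSpace ComplexConjugate
open Set Metric Filter

namespace Pool.Agent.X98.BQ

/-- The Fourier modes. -/
abbrev Md := ℤ × ℤ

/-- `|l|^2` -/
def sqn (l : Md) : ℝ := (l.1 : ℝ) ^ 2 + (l.2 : ℝ) ^ 2

/-- the coefficient of the transport term: `(l^⊥ · k) / |l|^2` -/
noncomputable def ee (k l : Md) : ℝ := ((l.1 : ℝ) * k.2 - (l.2 : ℝ) * k.1) / sqn l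

lemma sqn_nonneg (l : Md) : 0 ≤ sqn l := by unfold sqn; positivity

lemma sqn_neg (l : Md) : sqn (-l) = sqn l := by
  unfold sqn; simp

lemma one_le_sqn {l : Md} (hl : l ≠ 0) : 1 ≤ sqn l := by
  have h : l.1 ≠ 0 ∨ l.2 ≠ 0 := by
    by_contra hcon
    push Not at hcon
    exact hl (Prod.ext hcon.1 hcon.2)
  have h1 : (1 : ℤ) ≤ l.1 ^ 2 + l.2 ^ 2 := by
    rcases h with h | h
    · have := Int.one_le_abs h
      nlinarith [sq_abs l.1, sq_nonneg l.2, abs_nonneg l.1]
    · have := Int.one_le_abs h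
      nlinarith [sq_abs l.2, sq_nonneg l.1, abs_nonneg l.2]
  unfold sqn
  exact_mod_cast h1

lemma ee_neg_neg (k l : Md) : ee (-k) (-l) = ee k l := by
  unfold ee
  rw [sqn_neg]
  simp

lemma ee_swap (k j : Md) : ee k (k - j) = -ee j (j - k) := by
  unfold ee
  have h1 : sqn (j - k) = sqn (k - j) := by
    rw [← sqn_neg (k - j)]; congr 1; ring
  rw [h1, ← neg_div]
  congr 1
  simp only [Prod.fst_sub, Prod.snd_sub, Int.cast_sub]
  ring

/-- the modes of the `n`-th Galerkin system -/
noncomputable def K (n : ℕ) : Finset Md := (Finset.Icc (-(n : ℤ)) n ×ˢ Finset.Icc (-(n : ℤ)) n).erase 0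

lemma mem_K {n : ℕ} {k : Md} : k ∈ K n ↔ k ≠ 0 ∧ |k.1| ≤ n ∧ |k.2| ≤ n := by
  unfold K
  rw [Finset.mem_erase, Finset.mem_product, Finset.mem_Icc, Finset.mem_Icc, abs_le, abs_le]

lemma neg_mem_K {n : ℕ} {k : Md} : -k ∈ K n ↔ k ∈ K n := by
  rw [mem_K, mem_K]
  simp

lemma zero_not_mem_K (n : ℕ) : (0 : Md) ∉ K n := by
  rw [mem_K]; simp

section finite

variable (n : ℕ)

/-- the phase space of the Galerkin system (complex-valued trigonometric polynomials) -/
abbrev En := PiLp 2 (fun _ : ↥(K n) => ℂ)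

variable {n}

/-- extension by zero -/
noncomputable def ex (x : En n) (k : Md) : ℂ := if h : k ∈ K n then x ⟨k, h⟩ else 0

/-- the coefficients of the real part -/
noncomputable def sy (x : En n) (k : Md) : ℂ := (ex x k + conj (ex x (-k))) / 2

lemma ex_add (x y : En n) (k : Md) : ex (x + y) k = ex x k + ex y k := by
  unfold ex
  split_ifs
  · rfl
  · simp

lemma ex_smul (c : ℝ) (x : En n) (k : Md) : ex (c • x) k = (c : ℂ) * ex x k := by
  unfold ex
  split_ifs
  · rw [PiLp.smul_apply, Complex.real_smul]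
  · simp

lemma sy_add (x y : En n) (k : Md) : sy (x + y) k = sy x k + sy y k := by
  unfold sy
  rw [ex_add, ex_add, map_add]
  ring

lemma sy_smul (c : ℝ) (x : En n) (k : Md) : sy (c • x) k = (c : ℂ) * sy x k := by
  unfold sy
  rw [ex_smul, ex_smul, map_mul, Complex.conj_ofReal]
  ring

lemma sy_conj (x : En n) (k : Md) : sy x (-k) = conj (sy x k) := by
  unfold sy
  rw [neg_neg, map_div₀, map_add, Complex.conj_conj]
  simp only [map_ofNat]
  ring

lemma sy_eq_zero (x : En n) {k : Md} (hk : k ∉ K n) : sy x k = 0 := by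
  unfold sy ex
  rw [dif_neg hk, dif_neg (by rw [neg_mem_K]; exact hk)]
  simp

lemma ex_coe (x : En n) (k : K n) : ex x (k : Md) = x k := by
  unfold ex
  rw [dif_pos k.2]

/-- the transport term -/
noncomputable def B0 (w f : En n) : En n :=
  WithLp.toLp 2 fun k : K n => ∑ j : K n, (ee k ((k : Md) - j) : ℂ) * sy w ((k : Md) - j) * f j

lemma B0_apply (w f : En n) (k : K n) :
    B0 w f k = ∑ j : K n, (ee k ((k : Md) - j) : ℂ) * sy w ((k : Md) - j) * f j := rfl

/-- the transport term as a bilinear map -/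
noncomputable def Bl : En n →ₗ[ℝ] En n →ₗ[ℝ] En n :=
  LinearMap.mk₂ ℝ B0
    (by
      intro w w' f
      ext k
      rw [PiLp.add_apply, B0_apply, B0_apply, B0_apply, ← Finset.sum_add_distrib]
      refine Finset.sum_congr rfl fun j _ => ?_
      rw [sy_add]; ring)
    (by
      intro c w f
      ext k
      rw [PiLp.smul_apply, B0_apply, B0_apply, Finset.smul_sum]
      refine Finset.sum_congr rfl fun j _ => ?_
      rw [sy_smul, Complex.real_smul]; ring)
    (by
      intro w f f'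
      ext k
      rw [PiLp.add_apply, B0_apply, B0_apply, B0_apply, ← Finset.sum_add_distrib]
      refine Finset.sum_congr rfl fun j _ => ?_
      rw [PiLp.add_apply]; ring)
    (by
      intro c w f
      ext k
      rw [PiLp.smul_apply, B0_apply, B0_apply, Finset.smul_sum]
      refine Finset.sum_congr rfl fun j _ => ?_
      rw [PiLp.smul_apply, Complex.real_smul, Complex.real_smul]; ring)

/-- the transport term as a continuous bilinear map -/
noncomputable def Bc : En n →L[ℝ] En n →L[ℝ] En n :=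
  LinearMap.toContinuousLinearMap
    ((LinearMap.toContinuousLinearMap : (En n →ₗ[ℝ] En n) ≃ₗ[ℝ] (En n →L[ℝ] En n)).toLinearMap ∘ₗ Bl)

lemma Bc_apply (w f : En n) : Bc w f = B0 w f := rfl

/-- multiplication by a complex symbol, as a real-linear map -/
noncomputable def Mc (m : Md → ℂ) : En n →L[ℝ] En n :=
  LinearMap.toContinuousLinearMap
    { toFun := fun x => WithLp.toLp 2 fun k : K n => m k * x k
      map_add' := by
        intro x y
        ext k
        rw [PiLp.add_apply]
        change m k * (x + y) k = m k * x k + m k * y k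
        rw [PiLp.add_apply]; ring
      map_smul' := by
        intro c x
        ext k
        rw [PiLp.smul_apply]
        change m k * (c • x) k = c • (m k * x k)
        rw [PiLp.smul_apply, Complex.real_smul, Complex.real_smul]; ring }

lemma Mc_apply (m : Md → ℂ) (x : En n) (k : K n) : Mc m x k = m k * x k := rfl

lemma skew (w f : En n) : ⟪Bc w f, f⟫_ℝ = 0 := by
  rw [Bc_apply, PiLp.inner_apply]
  set a : K n → K n → ℝ := fun k j =>
    (conj ((ee k ((k : Md) - j) : ℂ) * sy w ((k : Md) - j) * f j) * f k).re with ha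
  have h1 : ∀ k : K n, ⟪B0 w f k, f k⟫_ℝ = ∑ j, a k j := by
    intro k
    rw [Complex.inner, B0_apply, map_sum, mul_comm, Finset.sum_mul, Complex.re_sum]
  have h2 : ∀ k j, a k j = -a j k := by
    intro k j
    simp only [ha]
    have h3 : sy w ((j : Md) - k) = conj (sy w ((k : Md) - j)) := by
      rw [← sy_conj]; congr 1; ring
    rw [h3, ee_swap (k : Md) j, ← Complex.neg_re, ← Complex.conj_re]
    congr 1
    simp only [map_mul, Complex.conj_conj, Complex.conj_ofReal, Complex.ofReal_neg, map_neg]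
    ring
  rw [Finset.sum_congr rfl fun k _ => h1 k]
  have h4 : ∑ k, ∑ j, a k j = -∑ k, ∑ j, a k j := by
    conv_lhs => rw [Finset.sum_comm]
    rw [← Finset.sum_neg_distrib]
    refine Finset.sum_congr rfl fun j _ => ?_
    rw [← Finset.sum_neg_distrib]
    exact Finset.sum_congr rfl fun k _ => h2 k j
  linarith

lemma sy_B0 (w f : En n) {k : Md} (hk : k ∈ K n) :
    sy (B0 w f) k = ∑ j ∈ K n, (ee k (k - j) : ℂ) * sy w (k - j) * sy f j := by
  have hk' : -k ∈ K n := neg_mem_K.2 hk
  have h1 : ex (B0 w f) k = ∑ j ∈ K n, (ee k (k - j) : ℂ) * sy w (k - j) * ex f j := by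
    unfold ex
    rw [dif_pos hk, B0_apply, ← Finset.sum_coe_sort (K n)]
    refine Finset.sum_congr rfl fun j _ => ?_
    rw [dif_pos j.2]
  have h2 : ex (B0 w f) (-k) = ∑ j ∈ K n, (ee (-k) (-k - j) : ℂ) * sy w (-k - j) * ex f j := by
    unfold ex
    rw [dif_pos hk', B0_apply, ← Finset.sum_coe_sort (K n)]
    refine Finset.sum_congr rfl fun j _ => ?_
    rw [dif_pos j.2]
  have h3 : conj (ex (B0 w f) (-k))
      = ∑ j ∈ K n, (ee k (k - j) : ℂ) * sy w (k - j) * conj (ex f (-j)) := by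
    rw [h2, map_sum]
    refine Finset.sum_nbij' (fun j => -j) (fun j => -j) ?_ ?_ ?_ ?_ ?_
    · intro j hj; exact neg_mem_K.2 hj
    · intro j hj; exact neg_mem_K.2 hj
    · intro j _; exact neg_neg j
    · intro j _; exact neg_neg j
    · intro j _
      have h4 : -k - j = -(k - -j) := by ring
      rw [h4, ee_neg_neg, sy_conj, neg_neg, map_mul, map_mul, Complex.conj_conj, Complex.conj_ofReal]
  have h5 : sy (B0 w f) k = (ex (B0 w f) k + conj (ex (B0 w f) (-k))) / 2 := rfl
  rw [h5, h1, h3, ← Finset.sum_add_distrib, Finset.sum_div]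
  refine Finset.sum_congr rfl fun j _ => ?_
  have h6 : sy f j = (ex f j + conj (ex f (-j))) / 2 := rfl
  rw [h6]; ring

lemma sy_Mc (m : Md → ℂ) (hm : ∀ k, conj (m (-k)) = m k) (x : En n) {k : Md} (hk : k ∈ K n) :
    sy (Mc m x) k = m k * sy x k := by
  have hk' : -k ∈ K n := neg_mem_K.2 hk
  unfold sy ex
  rw [dif_pos hk, dif_pos hk', dif_pos hk, dif_pos hk', Mc_apply, Mc_apply, map_mul]
  simp only [hm]
  ring

lemma sum_neg_K {α : Type*} [AddCommMonoid α] (F : Md → α) : ∑ k ∈ K n, F (-k) = ∑ k ∈ K n, F k := by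
  refine Finset.sum_nbij' (fun j => -j) (fun j => -j) ?_ ?_ ?_ ?_ ?_
  · intro j hj; exact neg_mem_K.2 hj
  · intro j hj; exact neg_mem_K.2 hj
  · intro j _; exact neg_neg j
  · intro j _; exact neg_neg j
  · intro j _; rfl

lemma norm_sq_eq (x : En n) : ‖x‖ ^ 2 = ∑ k ∈ K n, ‖ex x k‖ ^ 2 := by
  rw [PiLp.norm_sq_eq_of_L2, ← Finset.sum_coe_sort (K n)]
  refine Finset.sum_congr rfl fun k _ => ?_
  rw [ex_coe]

lemma sy_norm (x : En n) : ∑ k ∈ K n, ‖sy x k‖ ^ 2 ≤ ‖x‖ ^ 2 := by
  have h1 : ∀ k ∈ K n, ‖sy x k‖ ^ 2 ≤ (‖ex x k‖ ^ 2 + ‖ex x (-k)‖ ^ 2) / 2 := by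
    intro k _
    have h2 : ‖sy x k‖ ≤ (‖ex x k‖ + ‖ex x (-k)‖) / 2 := by
      unfold sy
      rw [norm_div, Complex.norm_ofNat]
      refine div_le_div_of_nonneg_right ?_ zero_le_two
      refine (norm_add_le _ _).trans ?_
      rw [RCLike.norm_conj]
    have h3 := norm_nonneg (sy x k)
    have h4 := norm_nonneg (ex x k)
    have h5 := norm_nonneg (ex x (-k))
    nlinarith [sq_nonneg (‖ex x k‖ - ‖ex x (-k)‖)]
  refine (Finset.sum_le_sum h1).trans (le_of_eq ?_)
  rw [← Finset.sum_div, Finset.sum_add_distrib, sum_neg_K (fun k => ‖ex x k‖ ^ 2), norm_sq_eq]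
  ring

end finite

end Pool.Agent.X98.BQ
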