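import Pool.Agent.X98.BQ.Galerkin

/-!
Solutions of the Galerkin systems with prescribed final temperature.
-/

set_option autoImplicit false

open scoped NNReal Topology InnerProductSpace ComplexConjugate
open Set Metric Filter

namespace Pool.Agent.X98.BQ

/-- the symbol of the dissipation, `ν κ² |k|²` -/
noncomputable def mA (ν κ : ℝ) (k : Md) : ℂ := ((ν * κ ^ 2 * sqn k : ℝ) : ℂ)

/-- the symbol of the buoyancy term, `i g κ k₁` -/
noncomputable def mG (g κ : ℝ) (k : Md) : ℂ := Complex.I * ((g * κ * k.1 : ℝ) : ℂ)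

lemma mA_symm (ν κ : ℝ) (k : Md) : conj (mA ν κ (-k)) = mA ν κ k := by
  unfold mA
  rw [Complex.conj_ofReal, sqn_neg]

lemma mG_symm (g κ : ℝ) (k : Md) : conj (mG g κ (-k)) = mG g κ k := by
  unfold mG
  rw [map_mul, Complex.conj_I, Complex.conj_ofReal]
  simp

variable {n : ℕ}

lemma energy_ineq {ν g κ : ℝ} (hν : 0 < ν) (hg : 0 < g) (hκ : 0 < κ) (w f : En n)
    (h : g / (ν * κ) * ‖f‖ ≤ ‖w‖) : ⟪Mc (mG g κ) f - Mc (mA ν κ) w, w⟫_ℝ ≤ 0 := by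
  set r : ℝ := g / (ν * κ) with hr
  have hrpos : 0 < r := by positivity
  set F2 : ℝ := ∑ k : K n, ‖f k‖ ^ 2 with hF2
  set W2 : ℝ := ∑ k : K n, ‖w k‖ ^ 2 with hW2
  set X2 : ℝ := ∑ k : K n, (Real.sqrt (sqn k) * ‖w k‖) ^ 2 with hX2
  set P : ℝ := ∑ k : K n, ‖f k‖ * (Real.sqrt (sqn k) * ‖w k‖) with hP
  have hf : ‖f‖ ^ 2 = F2 := PiLp.norm_sq_eq_of_L2 _ f
  have hw : ‖w‖ ^ 2 = W2 := PiLp.norm_sq_eq_of_L2 _ w
  have hsq : ∀ k : K n, (Real.sqrt (sqn k) * ‖w k‖) ^ 2 = sqn k * ‖w k‖ ^ 2 := by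
    intro k
    rw [mul_pow, Real.sq_sqrt (sqn_nonneg _)]
  have hWX : W2 ≤ X2 := by
    apply Finset.sum_le_sum
    intro k _
    rw [hsq]
    have h1 : 1 ≤ sqn (k : Md) := one_le_sqn (fun h0 => zero_not_mem_K n (h0 ▸ k.2))
    nlinarith [sq_nonneg ‖w k‖]
  have hX0 : 0 ≤ X2 := Finset.sum_nonneg (fun k _ => sq_nonneg _)
  have hCS : P ^ 2 ≤ F2 * X2 :=
    Finset.sum_mul_sq_le_sq_mul_sq Finset.univ (fun k : K n => ‖f k‖)
      (fun k : K n => Real.sqrt (sqn k) * ‖w k‖)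
  have hrF : r ^ 2 * F2 ≤ X2 := by
    have h1 : (r * ‖f‖) ^ 2 ≤ ‖w‖ ^ 2 := by
      apply sq_le_sq' _ h
      have h2 : 0 ≤ r * ‖f‖ := by positivity
      have h3 := norm_nonneg w
      linarith
    rw [mul_pow, hf, hw] at h1
    linarith
  have hrP : r * P ≤ X2 := by
    apply abs_le_of_sq_le_sq' _ hX0 |>.2
    calc (r * P) ^ 2 = r ^ 2 * P ^ 2 := by ring
      _ ≤ r ^ 2 * (F2 * X2) := mul_le_mul_of_nonneg_left hCS (by positivity)
      _ = (r ^ 2 * F2) * X2 := by ring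
      _ ≤ X2 * X2 := mul_le_mul_of_nonneg_right hrF hX0
      _ = X2 ^ 2 := by ring
  have hG : ⟪Mc (mG g κ) f, w⟫_ℝ ≤ g * κ * P := by
    rw [PiLp.inner_apply, hP, Finset.mul_sum]
    apply Finset.sum_le_sum
    intro k _
    refine (real_inner_le_norm _ _).trans ?_
    rw [Mc_apply, norm_mul]
    have h1 : ‖mG g κ (k : Md)‖ ≤ g * κ * Real.sqrt (sqn k) := by
      unfold mG
      rw [norm_mul, Complex.norm_I, one_mul, Complex.norm_real, Real.norm_eq_abs, abs_mul,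
        abs_of_pos (by positivity : 0 < g * κ)]
      refine mul_le_mul_of_nonneg_left ?_ (by positivity)
      apply Real.abs_le_sqrt
      unfold sqn
      nlinarith [sq_nonneg ((k : Md).2 : ℝ)]
    calc ‖mG g κ (k : Md)‖ * ‖f k‖ * ‖w k‖
        ≤ (g * κ * Real.sqrt (sqn k)) * ‖f k‖ * ‖w k‖ := by
          refine mul_le_mul_of_nonneg_right (mul_le_mul_of_nonneg_right h1 ?_) ?_
          · positivity
          · positivity
      _ = _ := by ring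
  have hA : ⟪Mc (mA ν κ) w, w⟫_ℝ = ν * κ ^ 2 * X2 := by
    rw [PiLp.inner_apply, hX2, Finset.mul_sum]
    refine Finset.sum_congr rfl fun k _ => ?_
    rw [Mc_apply, hsq]
    have h1 : mA ν κ (k : Md) * w k = (ν * κ ^ 2 * sqn k) • w k := by
      rw [Complex.real_smul]; rfl
    rw [h1, real_inner_smul_left, real_inner_self_eq_norm_sq]
    ring
  rw [inner_sub_left, hA]
  have h3 : g * κ * P ≤ ν * κ ^ 2 * X2 := by
    have h4 : g * κ * P = (ν * κ ^ 2) * (r * P) := by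
      rw [hr]; field_simp
    rw [h4]
    exact mul_le_mul_of_nonneg_left hrP (by positivity)
  linarith

/-- `sy · k` as a continuous real-linear map -/
noncomputable def syL (k : Md) : En n →L[ℝ] ℂ :=
  LinearMap.toContinuousLinearMap
    { toFun := fun x => sy x k
      map_add' := fun x y => sy_add x y k
      map_smul' := fun c x => by rw [sy_smul, RingHom.id_apply, Complex.real_smul] }

lemma syL_apply (k : Md) (x : En n) : syL k x = sy x k := rfl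

theorem level (n : ℕ) {ν g κ : ℝ} (hν : 0 < ν) (hg : 0 < g) (hκ : 0 < κ) (ψ : Md → ℂ)
    (hψ : ∀ k, ψ (-k) = conj (ψ k)) {T : ℝ} (hT : 0 ≤ T) :
    ∃ W Θ : ℝ → Md → ℂ, (∀ k ∈ K n, Θ T k = ψ k) ∧
      (∀ t k, k ∉ K n → W t k = 0 ∧ Θ t k = 0) ∧
      (∀ t k, W t (-k) = conj (W t k) ∧ Θ t (-k) = conj (Θ t k)) ∧
      (∀ t, ∑ k ∈ K n, ‖Θ t k‖ ^ 2 ≤ ∑ k ∈ K n, ‖ψ k‖ ^ 2) ∧
      (∀ t, 0 ≤ t → ∑ k ∈ K n, ‖W t k‖ ^ 2 ≤ (g / (ν * κ)) ^ 2 * ∑ k ∈ K n, ‖ψ k‖ ^ 2) ∧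
      (∀ t, 0 ≤ t → ∀ k ∈ K n, HasDerivAt (fun s => W s k)
        (-(∑ j ∈ K n, (ee k (k - j) : ℂ) * W t (k - j) * W t j) - mA ν κ k * W t k
          + mG g κ k * Θ t k) t) ∧
      (∀ t, 0 ≤ t → ∀ k ∈ K n, HasDerivAt (fun s => Θ s k)
        (-(∑ j ∈ K n, (ee k (k - j) : ℂ) * W t (k - j) * Θ t j)) t) := by
  set ψE : En n := WithLp.toLp 2 fun k : K n => ψ k with hψE
  have hexψ : ∀ k ∈ K n, ex ψE k = ψ k := by
    intro k hk
    unfold ex
    rw [dif_pos hk]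
  have hsyψ : ∀ k ∈ K n, sy ψE k = ψ k := by
    intro k hk
    unfold sy
    rw [hexψ k hk, hexψ (-k) (neg_mem_K.2 hk), hψ, Complex.conj_conj]
    ring
  have hnψ : ‖ψE‖ ^ 2 = ∑ k ∈ K n, ‖ψ k‖ ^ 2 := by
    rw [norm_sq_eq]
    exact Finset.sum_congr rfl fun k hk => by rw [hexψ k hk]
  obtain ⟨w, f, hfT, hfn, hwn, hwd, hfd⟩ := two_point (Bc (n := n)) (Mc (mA ν κ)) (Mc (mG g κ))
    (g / (ν * κ)) (by positivity) skew (fun w f h => energy_ineq hν hg hκ w f h) ψE T hT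
  refine ⟨fun t => sy (w t), fun t => sy (f t), ?_, ?_, ?_, ?_, ?_, ?_, ?_⟩
  · intro k hk
    simp only []
    rw [hfT, hsyψ k hk]
  · intro t k hk
    exact ⟨sy_eq_zero _ hk, sy_eq_zero _ hk⟩
  · intro t k
    exact ⟨sy_conj _ _, sy_conj _ _⟩
  · intro t
    refine (sy_norm (f t)).trans ?_
    rw [hfn, hnψ]
  · intro t ht
    refine (sy_norm (w t)).trans ?_
    rw [← hnψ, ← mul_pow]
    exact pow_le_pow_left₀ (norm_nonneg _) (hwn t ht) 2
  · intro t ht k hk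
    have h1 := (syL k).hasFDerivAt.comp_hasDerivAt t (hwd t ht)
    rw [map_add, map_sub, map_neg] at h1
    simp only [syL_apply] at h1
    rw [Bc_apply, sy_B0 _ _ hk, sy_Mc _ (mA_symm ν κ) _ hk, sy_Mc _ (mG_symm g κ) _ hk] at h1
    exact h1
  · intro t ht k hk
    have h1 := (syL k).hasFDerivAt.comp_hasDerivAt t (hfd t ht)
    rw [map_neg] at h1
    simp only [syL_apply] at h1
    rw [Bc_apply, sy_B0 _ _ hk] at h1
    exact h1

end Pool.Agent.X98.BQ
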