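import Pool.Agent.H839R2.Ode.Flow
import Pool.Agent.Helper133.Brouwer

/-!
A two-point problem for a finite-dimensional model of the semi-dissipative Boussinesq system:
the velocity component starts at zero, the temperature component is prescribed at the final time.
-/

set_option autoImplicit false

open scoped NNReal Topology InnerProductSpace
open Set Metric Filter

namespace Pool.Agent.X98.BQ

lemma hasDerivAt_posPart_sq (x : ℝ) : HasDerivAt (fun x : ℝ => (max x 0) ^ 2) (2 * max x 0) x := by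
  rcases lt_trichotomy x 0 with h | h | h
  · have h1 : (fun x : ℝ => (max x 0) ^ 2) =ᶠ[𝓝 x] fun _ => 0 := by
      filter_upwards [gt_mem_nhds h] with y hy
      rw [max_eq_right (le_of_lt hy)]; norm_num
    rw [max_eq_right h.le, mul_zero]
    exact (hasDerivAt_const x 0).congr_of_eventuallyEq h1
  · subst h
    rw [max_self, mul_zero, hasDerivAt_iff_isLittleO_nhds_zero]
    have h2 : (fun h : ℝ => (max (0 + h) 0) ^ 2 - (max (0 : ℝ) 0) ^ 2 - h • (0 : ℝ))
        =O[𝓝 0] fun h : ℝ => h ^ 2 := by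
      apply Asymptotics.IsBigO.of_bound 1
      refine Eventually.of_forall fun h => ?_
      simp only [zero_add, max_self, smul_zero, sub_zero, one_mul]
      rw [zero_pow two_ne_zero, sub_zero, Real.norm_eq_abs, Real.norm_eq_abs, abs_of_nonneg (sq_nonneg _),
        abs_of_nonneg (sq_nonneg _)]
      rcases le_total h 0 with h3 | h3
      · rw [max_eq_right h3]; nlinarith
      · rw [max_eq_left h3]
    exact h2.trans_isLittleO (Asymptotics.isLittleO_pow_id one_lt_two)
  · have h1 : (fun x : ℝ => (max x 0) ^ 2) =ᶠ[𝓝 x] fun x => x ^ 2 := by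
      filter_upwards [lt_mem_nhds h] with y hy
      rw [max_eq_left (le_of_lt hy)]
    rw [max_eq_left h.le]
    have h2 : HasDerivAt (fun x : ℝ => x ^ 2) (2 * x) x := by
      simpa using hasDerivAt_pow 2 x
    exact h2.congr_of_eventuallyEq h1

/-- A differentiable function that does not increase above the level `C` stays below `C`. -/
lemma below_const {y y' : ℝ → ℝ} {C : ℝ} (hy : ∀ t, HasDerivAt y (y' t) t)
    (h : ∀ t, 0 ≤ t → C ≤ y t → y' t ≤ 0) (h0 : y 0 ≤ C) {t : ℝ} (ht : 0 ≤ t) : y t ≤ C := by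
  set φ : ℝ → ℝ := fun t => (max (y t - C) 0) ^ 2 with hφ
  have hd : ∀ t, HasDerivAt φ (2 * max (y t - C) 0 * y' t) t := fun t =>
    HasDerivAt.comp (h₂ := fun x : ℝ => (max x 0) ^ 2) (h := fun t => y t - C) t
      (hasDerivAt_posPart_sq (y t - C)) ((hy t).sub_const C)
  have hanti : AntitoneOn φ (Ici 0) := by
    apply antitoneOn_of_deriv_nonpos (convex_Ici 0)
    · exact fun t _ => (hd t).continuousAt.continuousWithinAt
    · exact fun t _ => (hd t).differentiableAt.differentiableWithinAt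
    · intro t ht
      rw [interior_Ici] at ht
      rw [(hd t).deriv]
      rcases le_total C (y t) with h1 | h1
      · have h2 := h t (le_of_lt ht) h1
        have h3 : 0 ≤ 2 * max (y t - C) 0 := by positivity
        nlinarith
      · rw [max_eq_right (by linarith), mul_zero, zero_mul]
  have h1 := hanti (mem_Ici.2 le_rfl) (mem_Ici.2 ht) ht
  simp only [hφ] at h1
  rw [max_eq_right (show y 0 - C ≤ 0 by linarith)] at h1
  by_contra hcon
  push Not at hcon
  rw [max_eq_left (by linarith)] at h1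
  have : 0 < (y t - C) ^ 2 := by
    have : 0 < y t - C := by linarith
    positivity
  linarith

variable {E : Type*} [NormedAddCommGroup E] [InnerProductSpace ℝ E] [FiniteDimensional ℝ E]

/-- the vector field of the finite-dimensional model -/
noncomputable def fld (B : E →L[ℝ] E →L[ℝ] E) (A G : E →L[ℝ] E) (z : E × E) : E × E :=
  (-(B z.1 z.1) - A z.1 + G z.2, -(B z.1 z.2))

theorem two_point (B : E →L[ℝ] E →L[ℝ] E) (A G : E →L[ℝ] E) (r : ℝ) (hr : 0 ≤ r)
    (hB : ∀ w f, ⟪B w f, f⟫_ℝ = 0)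
    (hAG : ∀ w f, r * ‖f‖ ≤ ‖w‖ → ⟪G f - A w, w⟫_ℝ ≤ 0)
    (ψ : E) (T : ℝ) (hT : 0 ≤ T) :
    ∃ w f : ℝ → E, f T = ψ ∧ (∀ t, ‖f t‖ = ‖ψ‖) ∧ (∀ t, 0 ≤ t → ‖w t‖ ≤ r * ‖ψ‖) ∧
      (∀ t, 0 ≤ t → HasDerivAt w (-(B (w t) (w t)) - A (w t) + G (f t)) t) ∧
      (∀ t, 0 ≤ t → HasDerivAt f (-(B (w t) (f t))) t) := by
  set R₀ : ℝ := ‖ψ‖ + 1 with hR₀
  have hR₀pos : 0 < R₀ := by positivity
  have hψ : ‖ψ‖ < R₀ := by linarith
  set R : ℝ := r * R₀ + R₀ with hR
  have hRpos : 0 < R := by positivity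
  let χ : ContDiffBump (0 : E × E) := ⟨R, R + 1, hRpos, by linarith⟩
  set W : E × E → E × E := fun z => χ z • fld B A G z with hW
  have hfld : ContDiff ℝ 1 (fld B A G) := by
    unfold fld
    fun_prop
  have hWcd : ContDiff ℝ 1 W := χ.contDiff.smul hfld
  have hWcs : HasCompactSupport W := χ.hasCompactSupport.smul_right
  obtain ⟨K, hK⟩ := ContDiff.lipschitzWith_of_hasCompactSupport hWcs hWcd one_ne_zero
  obtain ⟨M, hM⟩ := hWcs.exists_bound_of_continuous hWcd.continuous
  have hM0 : 0 ≤ M := (norm_nonneg _).trans (hM 0)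
  obtain ⟨Φ, h0, h1, h2⟩ := Pool.Agent.H839R2.Ode.exists_flow W K ⟨M, hM0⟩ hK hM
  -- components of the derivative
  have hd1 : ∀ z t, HasDerivAt (fun t => (Φ z t).1) (W (Φ z t)).1 t := fun z t =>
    (h1 z t).fst
  have hd2 : ∀ z t, HasDerivAt (fun t => (Φ z t).2) (W (Φ z t)).2 t := fun z t =>
    (h1 z t).snd
  have hn2 : ∀ z t, ‖(Φ z t).2‖ = ‖z.2‖ := by
    intro z t
    have hd : ∀ t, HasDerivAt (fun t => ‖(Φ z t).2‖ ^ 2) 0 t := by
      intro t
      have h3 := (hd2 z t).norm_sq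
      refine h3.congr_deriv ?_
      have h4 : (W (Φ z t)).2 = χ (Φ z t) • (-(B (Φ z t).1 (Φ z t).2)) := rfl
      rw [h4, inner_smul_right, inner_neg_right, real_inner_comm, hB]
      ring
    have h5 := is_const_of_deriv_eq_zero (fun t => (hd t).differentiableAt) (fun t => (hd t).deriv) t 0
    simp only [h0] at h5
    exact (sq_eq_sq₀ (norm_nonneg _) (norm_nonneg _)).1 h5
  have hn1 : ∀ x t, 0 ≤ t → ‖(Φ (0, x) t).1‖ ≤ r * ‖x‖ := by
    intro x t ht
    have hd : ∀ t, HasDerivAt (fun t => ‖(Φ (0, x) t).1‖ ^ 2)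
        (2 * ⟪(Φ (0, x) t).1, (W (Φ (0, x) t)).1⟫_ℝ) t := fun t => (hd1 (0, x) t).norm_sq
    have h3 : ‖(Φ (0, x) t).1‖ ^ 2 ≤ (r * ‖x‖) ^ 2 := by
      refine below_const hd (fun s _ hs => ?_) ?_ ht
      · have h4 : (W (Φ (0, x) s)).1 = χ (Φ (0, x) s) •
            (-(B (Φ (0, x) s).1 (Φ (0, x) s).1) - A (Φ (0, x) s).1 + G (Φ (0, x) s).2) := rfl
        have h5 : ⟪(Φ (0, x) s).1, -(B (Φ (0, x) s).1 (Φ (0, x) s).1) - A (Φ (0, x) s).1
            + G (Φ (0, x) s).2⟫_ℝ
            = ⟪G (Φ (0, x) s).2 - A (Φ (0, x) s).1, (Φ (0, x) s).1⟫_ℝ := by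
          have h6 : -(B (Φ (0, x) s).1 (Φ (0, x) s).1) - A (Φ (0, x) s).1 + G (Φ (0, x) s).2
              = (G (Φ (0, x) s).2 - A (Φ (0, x) s).1) - B (Φ (0, x) s).1 (Φ (0, x) s).1 := by abel
          rw [h6, real_inner_comm, inner_sub_left, hB, sub_zero]
        rw [h4, inner_smul_right, h5]
        have h7 : r * ‖(Φ (0, x) s).2‖ ≤ ‖(Φ (0, x) s).1‖ := by
          rw [hn2]
          exact (sq_le_sq₀ (by positivity) (norm_nonneg _)).1 hs
        have h8 := hAG _ _ h7
        have h9 : 0 ≤ χ (Φ (0, x) s) := χ.nonneg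
        nlinarith
      · rw [h0]
        simp only [norm_zero]
        rw [zero_pow two_ne_zero]
        positivity
    exact (sq_le_sq₀ (norm_nonneg _) (by positivity)).1 h3
  -- the map
  set ρ : E → E := fun x => (R₀ / max R₀ ‖x‖) • x with hρ
  set τ : E → ℝ := fun x => T * min 1 (max 0 (2 - ‖x‖ / R₀)) with hτ
  have hτ0 : ∀ x, 0 ≤ τ x := fun x => mul_nonneg hT (le_min zero_le_one (le_max_left _ _))
  have hρc : Continuous ρ := by
    simp only [hρ]
    refine Continuous.smul (Continuous.div continuous_const (by fun_prop) fun x => ?_) continuous_id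
    exact (lt_of_lt_of_le hR₀pos (le_max_left _ _)).ne'
  have hτc : Continuous τ := by
    simp only [hτ]
    fun_prop
  set F : E → E := fun x => (Φ (0, ρ x) (τ x)).2 - ψ with hF
  have hFc : Continuous F := by
    have hc : Continuous fun x => Φ (0, ρ x) (τ x) := by
      rw [continuous_iff_continuousAt]
      intro x
      rw [ContinuousAt, tendsto_iff_dist_tendsto_zero]
      have hb : ∀ y, dist (Φ (0, ρ y) (τ y)) (Φ (0, ρ x) (τ x))
          ≤ dist ((0 : E), ρ y) (0, ρ x) * Real.exp (K * τ y) +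
            dist (Φ (0, ρ x) (τ y)) (Φ (0, ρ x) (τ x)) := fun y =>
        (dist_triangle _ (Φ (0, ρ x) (τ y)) _).trans (add_le_add (h2 _ _ _ (hτ0 y)) le_rfl)
      refine squeeze_zero (fun _ => dist_nonneg) hb ?_
      have hcx : Continuous (fun s => Φ (0, ρ x) s) :=
        continuous_iff_continuousAt.2 fun s => (h1 _ s).continuousAt
      have hcont : Continuous fun y => dist ((0 : E), ρ y) (0, ρ x) * Real.exp (K * τ y) +
            dist (Φ (0, ρ x) (τ y)) (Φ (0, ρ x) (τ x)) := by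
        have h6 : Continuous fun y => Φ (0, ρ x) (τ y) := hcx.comp hτc
        fun_prop
      have := hcont.tendsto x
      simpa using this
    exact (continuous_snd.comp hc).sub continuous_const
  obtain ⟨x, hx⟩ : ∃ x, F x = 0 := by
    by_contra hcon
    push Not at hcon
    set g : E → E := fun x => -((2 * R₀ / ‖F x‖) • F x) with hg
    have hgc : Continuous g := by
      simp only [hg]
      refine (Continuous.smul (Continuous.div continuous_const hFc.norm fun x => ?_) hFc).neg
      exact (norm_pos_iff.2 (hcon x)).ne'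
    have hgn : ∀ x, ‖g x‖ = 2 * R₀ := by
      intro x
      have h3 : 0 < ‖F x‖ := norm_pos_iff.2 (hcon x)
      simp only [hg]
      rw [norm_neg, norm_smul, Real.norm_of_nonneg (by positivity)]
      field_simp
    obtain ⟨x, hx⟩ := Pool.Agent.Helper133.Brouwer.brouwer g hgc (2 * R₀) fun x => (hgn x).le
    have hxn : ‖x‖ = 2 * R₀ := by rw [← hx, hgn]
    have h3 : ρ x = (1 / 2 : ℝ) • x := by
      simp only [hρ]
      rw [hxn, max_eq_right (by linarith)]
      congr 1
      field_simp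
    have h4 : τ x = 0 := by
      simp only [hτ]
      rw [hxn]
      have : 2 - 2 * R₀ / R₀ = 0 := by field_simp; ring
      rw [this]
      simp
    have h5 : F x = (1 / 2 : ℝ) • x - ψ := by
      simp only [hF]
      rw [h4, h0, h3]
    have h6 : 0 < ‖F x‖ := norm_pos_iff.2 (hcon x)
    set c : ℝ := 2 * R₀ / ‖F x‖ with hc
    have hcpos : 0 < c := by positivity
    have h7 : (c / 2 + 1) • x = c • ψ := by
      have h8 : g x = -(c • ((1 / 2 : ℝ) • x - ψ)) := by
        simp only [hg]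
        rw [← hc, h5]
      rw [hx] at h8
      rw [add_smul, one_smul]
      conv_lhs => rhs; rw [h8]
      rw [smul_sub, smul_smul]
      have : c * (1 / 2) = c / 2 := by ring
      rw [this]
      abel
    have h9 := congrArg norm h7
    rw [norm_smul, norm_smul, Real.norm_of_nonneg hcpos.le, Real.norm_of_nonneg (by positivity), hxn]
      at h9
    have h10 : c * ‖ψ‖ < c * R₀ := mul_lt_mul_of_pos_left hψ hcpos
    nlinarith
  have hx1 : (Φ (0, ρ x) (τ x)).2 = ψ := sub_eq_zero.1 hx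
  have hρn : ‖ρ x‖ = ‖ψ‖ := by
    rw [← hx1, hn2]
  have hxlt : ‖x‖ < R₀ := by
    by_contra hcon
    push Not at hcon
    have h3 : ‖ρ x‖ = R₀ := by
      simp only [hρ]
      rw [max_eq_right hcon, norm_smul, Real.norm_of_nonneg (by positivity)]
      have : 0 < ‖x‖ := lt_of_lt_of_le hR₀pos hcon
      field_simp
    rw [h3] at hρn
    linarith
  have hρx : ρ x = x := by
    simp only [hρ]
    rw [max_eq_left hxlt.le, div_self hR₀pos.ne', one_smul]
  have hτx : τ x = T := by
    simp only [hτ]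
    have h3 : ‖x‖ / R₀ ≤ 1 := (div_le_one hR₀pos).2 hxlt.le
    rw [max_eq_right (by linarith), min_eq_left (by linarith), mul_one]
  rw [hρx] at hx1 hρn
  rw [hτx] at hx1
  have hχ : ∀ t, 0 ≤ t → χ (Φ (0, x) t) = 1 := by
    intro t ht
    apply χ.one_of_mem_closedBall
    rw [mem_closedBall_zero_iff]
    have h3 : ‖(Φ (0, x) t).1‖ ≤ R := by
      refine (hn1 x t ht).trans ?_
      rw [hR]
      nlinarith
    have h4 : ‖(Φ (0, x) t).2‖ ≤ R := by
      rw [hn2, hR]
      have : 0 ≤ r * R₀ := by positivity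
      simp only
      linarith
    exact max_le h3 h4
  refine ⟨fun t => (Φ (0, x) t).1, fun t => (Φ (0, x) t).2, hx1, fun t => ?_, fun t ht => ?_,
    fun t ht => ?_, fun t ht => ?_⟩
  · rw [hn2]; exact hρn
  · rw [← hρn]; exact hn1 x t ht
  · have h3 := hd1 (0, x) t
    have h4 : (W (Φ (0, x) t)).1 = -(B (Φ (0, x) t).1 (Φ (0, x) t).1) - A (Φ (0, x) t).1
        + G (Φ (0, x) t).2 := by
      simp only [hW, hχ t ht, one_smul, fld]
    rw [h4] at h3
    exact h3
  · have h3 := hd2 (0, x) t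
    have h4 : (W (Φ (0, x) t)).2 = -(B (Φ (0, x) t).1 (Φ (0, x) t).2) := by
      simp only [hW, hχ t ht, one_smul, fld]
    rw [h4] at h3
    exact h3

end Pool.Agent.X98.BQ
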